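import Pool.Agent.Lib.MP_c984cf_ag.Deriv

namespace Pool.Agent.MP_c984cf_ag

theorem algebraMap_ratFunc {K : Type} [Field K] [Algebra ℂ K] (r : ℂ) :
    algebraMap ℂ (RatFunc K) r = RatFunc.C (algebraMap ℂ K r) := by
  rw [IsScalarTower.algebraMap_apply ℂ (Polynomial K) (RatFunc K), ← RatFunc.algebraMap_C]
  rfl

instance isScalarTower_ratFunc {K : Type} [Field K] [Algebra ℂ K] :
    IsScalarTower ℂ K (RatFunc K) := by
  apply IsScalarTower.of_algebraMap_eq
  intro r
  rw [algebraMap_ratFunc, RatFunc.algebraMap_eq_C]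

theorem algInd_cons {K : Type} [Field K] [Algebra ℂ K] {d : ℕ} {x : Fin d → K}
    (hx : AlgebraicIndependent ℂ x) (u : RatFunc K) (hu : Transcendental K u) :
    AlgebraicIndependent ℂ
      (Fin.cons u (fun i => algebraMap K (RatFunc K) (x i)) : Fin (d + 1) → RatFunc K) := by
  rw [algebraicIndependent_iff]
  intro P hP
  have key : ((MvPolynomial.aeval
      (Fin.cons u (fun i => algebraMap K (RatFunc K) (x i)) : Fin (d + 1) → RatFunc K) :
        MvPolynomial (Fin (d + 1)) ℂ →ₐ[ℂ] RatFunc K) : MvPolynomial (Fin (d + 1)) ℂ →+* RatFunc K) =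
      ((Polynomial.aeval u : Polynomial K →ₐ[K] RatFunc K) : Polynomial K →+* RatFunc K).comp
        ((Polynomial.mapRingHom ((MvPolynomial.aeval x : MvPolynomial (Fin d) ℂ →ₐ[ℂ] K) :
          MvPolynomial (Fin d) ℂ →+* K)).comp
          (MvPolynomial.finSuccEquiv ℂ d : MvPolynomial (Fin (d + 1)) ℂ →+* _)) := by
    apply MvPolynomial.ringHom_ext
    · intro r
      simp [MvPolynomial.finSuccEquiv_apply]
      exact algebraMap_ratFunc r
    · intro i
      refine Fin.cases ?_ (fun i => ?_) i
      · simp [MvPolynomial.finSuccEquiv_X_zero]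
      · simp [MvPolynomial.finSuccEquiv_X_succ]
  have h1 := congrArg (fun f : MvPolynomial (Fin (d + 1)) ℂ →+* RatFunc K => f P) key
  simp only [RingHom.coe_coe, RingHom.comp_apply] at h1
  rw [hP] at h1
  have h2 := (transcendental_iff_injective.mp hu) (a₁ := _) (a₂ := 0) (h1.symm.trans (map_zero _).symm)
  have h3 : MvPolynomial.finSuccEquiv ℂ d P = 0 := by
    ext1 n
    have h4 := congrArg (fun q : Polynomial K => q.coeff n) h2
    simp only [Polynomial.coe_mapRingHom, Polynomial.coeff_map, Polynomial.coeff_zero, RingHom.coe_coe] at h4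
    exact (algebraicIndependent_iff.mp hx) _ h4
  exact (map_eq_zero_iff _ (MvPolynomial.finSuccEquiv ℂ d).injective).mp h3

theorem transcendental_u {K : Type} [Field K] :
    Transcendental K ((RatFunc.X : RatFunc K) / (RatFunc.X - 1)) := by
  apply RatFunc.transcendental_of_ne_C
  rintro ⟨c, hc⟩
  have hX : (RatFunc.X : RatFunc K) - 1 ≠ 0 := by
    intro h
    have h1 : algebraMap (Polynomial K) (RatFunc K) (Polynomial.X - 1) = 0 := by
      rw [map_sub, RatFunc.algebraMap_X, map_one, h]
    have h2 := (map_eq_zero_iff _ (RatFunc.algebraMap_injective K)).mp h1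
    exact Polynomial.X_sub_C_ne_zero (1 : K) (by simpa using h2)
  rw [div_eq_iff hX] at hc
  have h1 : algebraMap (Polynomial K) (RatFunc K) (Polynomial.X) =
      algebraMap (Polynomial K) (RatFunc K) (Polynomial.C c * (Polynomial.X - 1)) := by
    rw [map_mul, map_sub, RatFunc.algebraMap_X, map_one, RatFunc.algebraMap_C, ← hc]
  have h2 := RatFunc.algebraMap_injective K h1
  have h3 := congrArg (fun q => Polynomial.eval 1 q) h2
  simp at h3

end Pool.Agent.MP_c984cf_ag
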