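import Mathlib

namespace Pool.Agent.MP_c984cf_ag

open Metric Set Filter Topology

/-- Local chart of a smooth complex hypersurface at the point `p`, as a graph over the tangent
space. -/
theorem exists_chart {E : Type} [NormedAddCommGroup E] [NormedSpace ℂ E] [CompleteSpace E]
    {f : E → ℂ} {f' : E →L[ℂ] ℂ} {p : E} (hf : HasStrictFDerivAt f f' p) (hp : f p = 0)
    (hf' : f'.range = ⊤) :
    ∃ (π : E →L[ℂ] f'.ker) (ψ : f'.ker → E) (U : Set E) (r : ℝ), IsOpen U ∧ p ∈ U ∧ 0 < r ∧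
      (∀ v : f'.ker, π v = v) ∧
      ContinuousOn ψ (ball 0 r) ∧ ψ 0 = p ∧
      (∀ v ∈ ball (0 : f'.ker) r, ψ v ∈ U ∧ f (ψ v) = 0 ∧ π (ψ v - p) = v) ∧
      (∀ x ∈ U, f x = 0 → ‖π (x - p)‖ < r → ψ (π (x - p)) = x) ∧
      (∀ η > 0, ∃ δ > 0, ∀ v : f'.ker, ‖v‖ < δ → ‖ψ v - p - (v : E)‖ ≤ η * ‖v‖) := by
  have hker : f'.ker.ClosedComplemented := f'.ker_closedComplemented_of_finiteDimensional_range
  let Φ := hf.implicitToOpenPartialHomeomorphOfComplemented f f' hf' hker
  have hΦ : ∀ x, Φ x = (f x, Classical.choose hker (x - p)) := fun x => rfl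
  have hsrc : p ∈ Φ.source := hf.mem_implicitToOpenPartialHomeomorphOfComplemented_source hf' hker
  have htgt : ((0 : ℂ), (0 : f'.ker)) ∈ Φ.target := by
    have := hf.mem_implicitToOpenPartialHomeomorphOfComplemented_target hf' hker
    rwa [hp] at this
  have hself : Φ.symm (0, 0) = p := by
    have h1 := Φ.left_inv hsrc
    rwa [hΦ, hp, sub_self, map_zero] at h1
  obtain ⟨r, hr, hball⟩ : ∃ r > 0, ∀ v : f'.ker, ‖v‖ < r → ((0 : ℂ), v) ∈ Φ.target := by
    have h1 : ∀ᶠ v in 𝓝 (0 : f'.ker), ((0 : ℂ), v) ∈ Φ.target := by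
      have h2 : ContinuousAt (fun v : f'.ker => ((0 : ℂ), v)) 0 := by fun_prop
      exact h2.eventually (Φ.open_target.mem_nhds htgt)
    obtain ⟨r, hr, h3⟩ := Metric.eventually_nhds_iff.mp h1
    exact ⟨r, hr, fun v hv => h3 (by simpa using hv)⟩
  refine ⟨Classical.choose hker, fun v => Φ.symm (0, v), Φ.source, r, Φ.open_source, hsrc, hr,
    Classical.choose_spec hker, ?_, hself, ?_, ?_, ?_⟩
  · intro v hv
    have hv' : ‖v‖ < r := by simpa using hv
    have h1 : ContinuousAt (fun v : f'.ker => Φ.symm ((0 : ℂ), v)) v := by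
      have h2 : ContinuousAt Φ.symm ((0 : ℂ), v) := Φ.symm.continuousAt (hball v hv')
      exact ContinuousAt.comp (f := fun v : f'.ker => ((0 : ℂ), v)) h2 (by fun_prop)
    exact h1.continuousWithinAt
  · intro v hv
    have hv' : ‖v‖ < r := by simpa using hv
    have h1 := Φ.right_inv (hball v hv')
    rw [hΦ] at h1
    exact ⟨Φ.map_target (hball v hv'), congrArg Prod.fst h1, congrArg Prod.snd h1⟩
  · intro x hx hfx hxr
    have h1 := Φ.left_inv hx
    rw [hΦ, hfx] at h1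
    exact h1
  · intro η hη
    have h1 := hf.to_implicitFunctionOfComplemented hf' hker
    have h2 : HasFDerivAt (fun v : f'.ker => Φ.symm ((0 : ℂ), v)) f'.ker.subtypeL 0 := by
      have h3 := h1.hasFDerivAt
      rw [hp] at h3
      exact h3
    rw [hasFDerivAt_iff_isLittleO_nhds_zero] at h2
    have h4 := h2.def hη
    obtain ⟨δ, hδ, h5⟩ := Metric.eventually_nhds_iff.mp h4
    refine ⟨δ, hδ, fun v hv => ?_⟩
    have h6 := h5 (y := v) (by simpa using hv)
    simpa [hself] using h6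

end Pool.Agent.MP_c984cf_ag
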