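import Pool.Agent.Lib.MP_c984cf_ag.Homot

namespace Pool.Agent.MP_c984cf_ag

open Metric Set Filter Topology unitInterval

variable {E : Type} [NormedAddCommGroup E] [NormedSpace ℂ E] [FiniteDimensional ℂ E]
  {f : E → ℂ} {f' : E →L[ℂ] ℂ} {p : E}

omit [FiniteDimensional ℂ E] in
theorem liftMap_apply {hp : f p = 0} {k : I × {x : E // f x = 0} → {x : E // f x = 0}}
    {a : I → ℂ} (h : GoodHom hp k a) (s : I) (z : Mod f f' p) :
    ((liftMap h (s, z) : Mod f f' p) : E × ℂ) = (liftFun hp k a s z, z.1.2) := rfl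

/-- The modification of a contractible hypersurface times a line is contractible. -/
theorem contractible_Mod (hf : HasStrictFDerivAt f f' p) (hp : f p = 0) (hf' : f'.range = ⊤)
    [ContractibleSpace {x : E // f x = 0}] : ContractibleSpace (Mod f f' p) := by
  have : CompleteSpace E := FiniteDimensional.complete ℂ E
  obtain ⟨π, ψ, U, r, h1, h2, h3, h4, h5, h6, h7, h8, h9⟩ := exists_chart hf hp hf'
  let c : ChartData f f' p := ⟨π, ψ, U, r, h1, h2, h3, h5, h6, h7, h8, h9⟩
  obtain ⟨q1, ⟨H⟩⟩ := id_nullhomotopic {x : E // f x = 0}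
  let P : {x : E // f x = 0} := ⟨p, hp⟩
  -- the three homotopies of the hypersurface
  let k2 : I × {x : E // f x = 0} → {x : E // f x = 0} :=
    fun q => H (q.1 * c.th q.2, c.k1 (1, q.2))
  let k3 : I × {x : E // f x = 0} → {x : E // f x = 0} :=
    fun q => H (unitInterval.symm q.1 * c.th q.2, P)
  have g1 := c.goodHom_k1 hp
  have hk1 := c.continuous_k1
  have hth := c.continuous_th
  obtain ⟨δ, hδ, hnear⟩ := c.nu_small (1 / 4) (by norm_num)
  have k2_near : ∀ (s : I) (x : {x : E // f x = 0}), ‖(x : E) - p‖ < δ → (k2 (s, x) : E) = p := by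
    intro s x hx
    have hnu := hnear x hx
    simp only [k2]
    rw [c.th_eq_zero hnu, mul_zero, H.apply_zero]
    exact c.k1_one_eq (by linarith)
  have k3_near : ∀ (s : I) (x : {x : E // f x = 0}), ‖(x : E) - p‖ < δ → (k3 (s, x) : E) = p := by
    intro s x hx
    have hnu := hnear x hx
    simp only [k3]
    rw [c.th_eq_zero hnu, mul_zero, H.apply_zero]
    rfl
  have g2 : GoodHom hp k2 (fun _ => 0) :=
    { cont := by
        have := H.continuous
        simp only [k2]
        fun_prop
      cont_a := continuous_const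
      deriv := by
        intro η hη
        refine ⟨δ, hδ, fun s x hx => ?_⟩
        rw [k2_near s x hx, sub_self, zero_smul, sub_zero, norm_zero]
        positivity }
  have g3 : GoodHom hp k3 (fun _ => 0) :=
    { cont := by
        have := H.continuous
        simp only [k3]
        fun_prop
      cont_a := continuous_const
      deriv := by
        intro η hη
        refine ⟨δ, hδ, fun s x hx => ?_⟩
        rw [k3_near s x hx, sub_self, zero_smul, sub_zero, norm_zero]
        positivity }
  let L1 : C(I × Mod f f' p, Mod f f' p) := liftMap g1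
  let L2 : C(I × Mod f f' p, Mod f f' p) := liftMap g2
  let L3 : C(I × Mod f f' p, Mod f f' p) := liftMap g3
  have hmem0 : ∀ t : ℂ, ((0 : E), t) ∈ Mod f f' p := by
    intro t
    by_cases ht : ep t = 0
    · exact Or.inr ⟨ht, by simp⟩
    · exact Or.inl ⟨ht, by simp [hp]⟩
  let L4 : C(I × Mod f f' p, Mod f f' p) :=
    { toFun := fun q => ⟨((0 : E), ((1 - (q.1 : ℝ) : ℝ) : ℂ) * q.2.1.2), hmem0 _⟩
      continuous_toFun := by
        refine Continuous.subtype_mk ?_ _
        fun_prop }
  have e01 : ∀ z, L1 (0, z) = z := by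
    intro z
    apply Subtype.ext
    show (liftFun hp c.k1 _ 0 z, z.1.2) = z.1
    unfold liftFun
    rw [c.k1_zero_eq]
    simp
  have e12 : ∀ z, L1 (1, z) = L2 (0, z) := by
    intro z
    apply Subtype.ext
    show (liftFun hp c.k1 _ 1 z, z.1.2) = (liftFun hp k2 _ 0 z, z.1.2)
    unfold liftFun
    have : k2 (0, toD hp z) = c.k1 (1, toD hp z) := by
      simp only [k2, zero_mul]
      rw [H.apply_zero]; rfl
    rw [this]
    simp
  have e23 : ∀ z, L2 (1, z) = L3 (0, z) := by
    intro z
    apply Subtype.ext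
    show (liftFun hp k2 _ 1 z, z.1.2) = (liftFun hp k3 _ 0 z, z.1.2)
    unfold liftFun
    have : k2 (1, toD hp z) = k3 (0, toD hp z) := by
      simp only [k2, k3, one_mul, unitInterval.symm_zero]
      by_cases hx : 1 / 2 ≤ c.nu (toD hp z)
      · rw [c.th_eq_one hx, H.apply_one, H.apply_one]; rfl
      · have : c.k1 (1, toD hp z) = P := Subtype.ext (c.k1_one_eq (by linarith))
        rw [this]
    rw [this]
  have e34 : ∀ z, L3 (1, z) = L4 (0, z) := by
    intro z
    apply Subtype.ext
    show (liftFun hp k3 _ 1 z, z.1.2) = ((0 : E), ((1 - ((0 : I) : ℝ) : ℝ) : ℂ) * z.1.2)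
    unfold liftFun
    have : k3 (1, toD hp z) = P := by
      simp only [k3, unitInterval.symm_one, zero_mul]
      rw [H.apply_zero]; rfl
    rw [this]
    simp [P]
  have e45 : ∀ z, L4 (1, z) = ⟨((0 : E), 0), hmem0 0⟩ := by
    intro z
    apply Subtype.ext
    show ((0 : E), ((1 - ((1 : I) : ℝ) : ℝ) : ℂ) * z.1.2) = ((0 : E), (0 : ℂ))
    simp
  rw [contractible_iff_id_nullhomotopic]
  refine ⟨⟨((0 : E), 0), hmem0 0⟩, ?_⟩
  have H1 : (ContinuousMap.id (Mod f f' p)).Homotopic ⟨fun z => L1 (1, z), by fun_prop⟩ :=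
    ⟨{ toContinuousMap := L1
       map_zero_left := e01
       map_one_left := fun z => rfl }⟩
  have H2 : (⟨fun z => L1 (1, z), by fun_prop⟩ : C(Mod f f' p, Mod f f' p)).Homotopic
      ⟨fun z => L2 (1, z), by fun_prop⟩ :=
    ⟨{ toContinuousMap := L2
       map_zero_left := fun z => (e12 z).symm
       map_one_left := fun z => rfl }⟩
  have H3 : (⟨fun z => L2 (1, z), by fun_prop⟩ : C(Mod f f' p, Mod f f' p)).Homotopic
      ⟨fun z => L3 (1, z), by fun_prop⟩ :=
    ⟨{ toContinuousMap := L3
       map_zero_left := fun z => (e23 z).symm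
       map_one_left := fun z => rfl }⟩
  have H4 : (⟨fun z => L3 (1, z), by fun_prop⟩ : C(Mod f f' p, Mod f f' p)).Homotopic
      (ContinuousMap.const _ ⟨((0 : E), 0), hmem0 0⟩) :=
    ⟨{ toContinuousMap := L4
       map_zero_left := fun z => (e34 z).symm
       map_one_left := fun z => e45 z }⟩
  exact ((H1.trans H2).trans H3).trans H4

end Pool.Agent.MP_c984cf_ag
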