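import Mathlib

/-!
# Smooth contractible hypersurfaces of log-general type: definitions

Log pluricanonical forms of an affine variety with coordinate ring `A`, function field `K` and
dimension `d`, written through their values on a frame `D` of vector fields (derivations of `K`):
the form `h • (dx₁ ∧ … ∧ dx_d)^{⊗ m}` is recorded by the function `h`.
-/

namespace Pool.Agent.MP_c984cf_ag

/-- The value of the top form `dc₁ ∧ … ∧ dc_d` on the frame `D₁, …, D_d`. -/
noncomputable def jac {K : Type} [Field K] [Algebra ℂ K] {d : ℕ}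
    (D : Fin d → Derivation ℂ K K) (c : Fin d → K) : K :=
  Matrix.det (Matrix.of fun i j => D j (c i))

/-- The `A`-module of regular top forms: spanned by the forms `da₁ ∧ … ∧ da_d`, `aᵢ ∈ A`. -/
noncomputable def regForms (A : Type) {K : Type} [CommRing A] [Field K] [Algebra ℂ K] [Algebra A K]
    {d : ℕ} (D : Fin d → Derivation ℂ K K) : Submodule A K :=
  Submodule.span A {h | ∃ c : Fin d → A, h = jac D (fun i => algebraMap A K (c i))}

/-- The `R`-module of logarithmic top forms along a valuation ring `R` of `K`: spanned by the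
forms `θ₁ ∧ … ∧ θ_d`, where each `θᵢ` is `dc` with `c ∈ R`, or `dc / c` with `c ∈ K`, `c ≠ 0`. -/
noncomputable def logForms {K : Type} [Field K] [Algebra ℂ K] {d : ℕ}
    (R : ValuationSubring K) (D : Fin d → Derivation ℂ K K) : Submodule R K :=
  Submodule.span R {h | ∃ (S : Finset (Fin d)) (c : Fin d → K),
    (∀ i ∈ S, c i ≠ 0) ∧ (∀ i, i ∉ S → c i ∈ R) ∧ h = jac D c / ∏ i ∈ S, c i}

/-- Log `m`-canonical forms: regular on the variety (products of `m` regular top forms), and
logarithmic along every valuation ring of `K` containing `ℂ`. -/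
def logPluri (A : Type) {K : Type} [CommRing A] [Field K] [Algebra ℂ K] [Algebra A K]
    {d : ℕ} (D : Fin d → Derivation ℂ K K) (m : ℕ) : Set K :=
  {h | h ∈ regForms A D ^ m ∧
    ∀ R : ValuationSubring K, (∀ z : ℂ, algebraMap ℂ K z ∈ R) → h ∈ logForms R D ^ m}

/-- The (smooth, affine) variety with coordinate ring `A` of dimension `d` is of log-general
type: for some `m ≥ 1` there are log `m`-canonical forms `h₀ ≠ 0, h₁, …, h_d` whose quotients
`h₁/h₀, …, h_d/h₀` are algebraically independent over `ℂ`. -/
def LogGeneralType (A : Type) [CommRing A] [Algebra ℂ A] (d : ℕ) : Prop :=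
  ∃ (K : Type) (_ : Field K) (_ : Algebra ℂ K) (_ : Algebra A K) (_ : IsScalarTower ℂ A K)
    (_ : IsFractionRing A K) (D : Fin d → Derivation ℂ K K) (m : ℕ) (h : Fin (d + 1) → K),
    (∃ c, jac D c ≠ 0) ∧ 1 ≤ m ∧ (∀ i, h i ∈ logPluri A D m) ∧ h 0 ≠ 0 ∧
      AlgebraicIndependent ℂ (fun i : Fin d => h i.succ / h 0)

/-- `X = {p = 0} ⊂ ℂⁿ` is a smooth contractible (irreducible) hypersurface of log-general type,
i.e. of logarithmic Kodaira dimension `n - 1`. -/
structure IsSmoothContractibleLG (n : ℕ) (p : MvPolynomial (Fin n) ℂ) : Prop where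
  irreducible : Irreducible p
  smooth : ∀ x, MvPolynomial.eval x p = 0 → ∃ i, MvPolynomial.eval x (MvPolynomial.pderiv i p) ≠ 0
  contractible : ContractibleSpace {x : Fin n → ℂ // MvPolynomial.eval x p = 0}
  logGeneral : LogGeneralType (MvPolynomial (Fin n) ℂ ⧸ Ideal.span {p}) (n - 1)

end Pool.Agent.MP_c984cf_ag
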