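import Pool.Agent.Lib.MP_c984cf_ag.Defs

namespace Pool.Agent.MP_c984cf_ag

/-- Extension of a derivation from a domain to its fraction field. -/
theorem exists_extend {P L : Type} [CommRing P] [IsDomain P] [Field L] [Algebra ℂ P] [Algebra ℂ L]
    [Algebra P L] [IsScalarTower ℂ P L] [IsFractionRing P L] (d : Derivation ℂ P L) :
    ∃ D : Derivation ℂ L L, ∀ a, D (algebraMap P L a) = d a := by
  classical
  let ψ₀ : P →+* TrivSqZeroExt L L :=
    { toFun := fun a => TrivSqZeroExt.inl (algebraMap P L a) + TrivSqZeroExt.inr (d a)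
      map_one' := by simp
      map_zero' := by simp
      map_add' := by
        intro a b
        ext <;> simp
      map_mul' := by
        intro a b
        ext
        · simp
        · simp only [Derivation.leibniz, TrivSqZeroExt.snd_add, TrivSqZeroExt.snd_inl,
            TrivSqZeroExt.snd_inr, TrivSqZeroExt.snd_mul, TrivSqZeroExt.fst_add,
            TrivSqZeroExt.fst_inl, TrivSqZeroExt.fst_inr, zero_add, add_zero,
            algebraMap_smul, op_smul_eq_smul] }
  have hg : ∀ y : nonZeroDivisors P, IsUnit (ψ₀ y) := by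
    intro y
    rw [TrivSqZeroExt.isUnit_iff_isUnit_fst]
    have : (ψ₀ (y : P)).fst = algebraMap P L y := by simp [ψ₀]
    rw [this]
    exact IsLocalization.map_units L y
  let ψ : L →+* TrivSqZeroExt L L := IsLocalization.lift hg
  have hψ : ∀ a, ψ (algebraMap P L a) = ψ₀ a := fun a => IsLocalization.lift_eq hg a
  have hfst : ∀ x : L, (ψ x).fst = x := by
    intro x
    have h1 : ((TrivSqZeroExt.fstHom ℂ L L : TrivSqZeroExt L L →ₐ[ℂ] L) : TrivSqZeroExt L L →+* L).comp ψ =
        RingHom.id L := by
      apply IsLocalization.ringHom_ext (nonZeroDivisors P)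
      ext a
      simp [hψ, ψ₀]
    exact congrArg (fun f : L →+* L => f x) h1
  have hsnd_mul : ∀ x y : L, (ψ (x * y)).snd = x * (ψ y).snd + y * (ψ x).snd := by
    intro x y
    rw [map_mul, TrivSqZeroExt.snd_mul]
    simp [hfst, mul_comm]
  have hC : ∀ z : ℂ, (ψ (algebraMap ℂ L z)).snd = 0 := by
    intro z
    rw [IsScalarTower.algebraMap_apply ℂ P L, hψ]
    simp [ψ₀]
  refine ⟨Derivation.mk'
    { toFun := fun x => (ψ x).snd
      map_add' := by intro x y; simp
      map_smul' := by
        intro z x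
        simp only [RingHom.id_apply]
        rw [Algebra.smul_def, hsnd_mul, hC, mul_zero, add_zero, Algebra.smul_def] } ?_, ?_⟩
  · intro a b
    simp only [LinearMap.coe_mk, AddHom.coe_mk]
    rw [hsnd_mul]
    simp
  · intro a
    simp [hψ, ψ₀]

open Polynomial in
/-- The extension of a derivation of `K` to `K(t)` killing `t`. -/
theorem exists_lift_deriv {K : Type} [Field K] [Algebra ℂ K] (D : Derivation ℂ K K) :
    ∃ D' : Derivation ℂ (RatFunc K) (RatFunc K),
      (∀ a : K, D' (algebraMap K (RatFunc K) a) = algebraMap K (RatFunc K) (D a)) ∧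
      D' RatFunc.X = 0 := by
  let f : PolynomialModule K K →ₗ[K[X]] RatFunc K :=
    (Algebra.linearMap K[X] (RatFunc K)).comp
      (PolynomialModule.equivPolynomialSelf : PolynomialModule K K ≃ₗ[K[X]] K[X]).toLinearMap
  obtain ⟨D', hD'⟩ := exists_extend (L := RatFunc K) (f.compDer D.mapCoeffs)
  refine ⟨D', ?_, ?_⟩
  · intro a
    have h1 : algebraMap K (RatFunc K) a = algebraMap K[X] (RatFunc K) (C a) := by
      rw [← Polynomial.algebraMap_eq, ← IsScalarTower.algebraMap_apply K K[X] (RatFunc K)]
    rw [h1, hD']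
    simp [f]
  · rw [← RatFunc.algebraMap_X, hD']
    simp [f]

open Polynomial in
/-- The derivation `d/dt` of `K(t)`. -/
theorem exists_dt {K : Type} [Field K] [Algebra ℂ K] :
    ∃ D' : Derivation ℂ (RatFunc K) (RatFunc K),
      (∀ a : K, D' (algebraMap K (RatFunc K) a) = 0) ∧ D' RatFunc.X = 1 := by
  let d₀ : Derivation ℂ K[X] K[X] := (Polynomial.derivative' (R := K)).restrictScalars ℂ
  obtain ⟨D', hD'⟩ := exists_extend (L := RatFunc K) ((Algebra.linearMap K[X] (RatFunc K)).compDer d₀)
  refine ⟨D', ?_, ?_⟩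
  · intro a
    have h1 : algebraMap K (RatFunc K) a = algebraMap K[X] (RatFunc K) (C a) := by
      rw [← Polynomial.algebraMap_eq, ← IsScalarTower.algebraMap_apply K K[X] (RatFunc K)]
    rw [h1, hD']
    simp [d₀]
  · rw [← RatFunc.algebraMap_X, hD']
    simp [d₀]

end Pool.Agent.MP_c984cf_ag
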