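import Pool.Agent.Lib.MP_c984cf_ag.Lift
import Pool.Agent.Lib.MP_c984cf_ag.Chart

namespace Pool.Agent.MP_c984cf_ag

open Metric Set Filter Topology unitInterval

/-- Chart data at `p`. -/
structure ChartData {E : Type} [NormedAddCommGroup E] [NormedSpace ℂ E] (f : E → ℂ)
    (f' : E →L[ℂ] ℂ) (p : E) where
  π : E →L[ℂ] f'.ker
  ψ : f'.ker → E
  U : Set E
  r : ℝ
  openU : IsOpen U
  pU : p ∈ U
  r_pos : 0 < r
  cont : ContinuousOn ψ (ball 0 r)
  ψ0 : ψ 0 = p
  map : ∀ v ∈ ball (0 : f'.ker) r, ψ v ∈ U ∧ f (ψ v) = 0 ∧ π (ψ v - p) = v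
  inv : ∀ x ∈ U, f x = 0 → ‖π (x - p)‖ < r → ψ (π (x - p)) = x
  lo : ∀ η > 0, ∃ δ > 0, ∀ v : f'.ker, ‖v‖ < δ → ‖ψ v - p - (v : E)‖ ≤ η * ‖v‖

variable {E : Type} [NormedAddCommGroup E] [NormedSpace ℂ E] [FiniteDimensional ℂ E]
  {f : E → ℂ} {f' : E →L[ℂ] ℂ} {p : E}

namespace ChartData

variable (c : ChartData f f' p)

/-- Open coordinate patch. -/
def V : Set {x : E // f x = 0} := {x | (x : E) ∈ c.U ∧ ‖c.π ((x : E) - p)‖ < c.r}

/-- Closed coordinate ball. -/
def Cl : Set {x : E // f x = 0} := {x | (x : E) ∈ c.U ∧ ‖c.π ((x : E) - p)‖ ≤ c.r / 2}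

omit [FiniteDimensional ℂ E] in
theorem isOpen_V : IsOpen c.V := by
  have h1 : IsOpen {x : {x : E // f x = 0} | (x : E) ∈ c.U} := c.openU.preimage continuous_subtype_val
  have h2 : IsOpen {x : {x : E // f x = 0} | ‖c.π ((x : E) - p)‖ < c.r} :=
    isOpen_lt (by fun_prop) continuous_const
  exact h1.inter h2

omit [FiniteDimensional ℂ E] in
theorem Cl_subset_V : c.Cl ⊆ c.V := by
  intro x hx
  exact ⟨hx.1, lt_of_le_of_lt hx.2 (by linarith [c.r_pos])⟩

theorem isClosed_Cl : IsClosed c.Cl := by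
  have hr := c.r_pos
  have hsub : closedBall (0 : f'.ker) (c.r / 2) ⊆ ball 0 c.r :=
    closedBall_subset_ball (by linarith)
  let g : closedBall (0 : f'.ker) (c.r / 2) → {x : E // f x = 0} :=
    fun v => ⟨c.ψ v, (c.map v (hsub v.2)).2.1⟩
  have hg : Continuous g := by
    refine Continuous.subtype_mk ?_ _
    exact (c.cont.mono hsub).comp_continuous continuous_subtype_val (fun v => v.2)
  have hcomp : IsCompact (range g) := by
    have : CompactSpace (closedBall (0 : f'.ker) (c.r / 2)) := by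
      have : ProperSpace f'.ker := FiniteDimensional.proper ℂ f'.ker
      exact isCompact_iff_compactSpace.mp (isCompact_closedBall _ _)
    exact isCompact_range hg
  have heq : c.Cl = range g := by
    ext x
    constructor
    · intro hx
      have hv : c.π ((x : E) - p) ∈ closedBall (0 : f'.ker) (c.r / 2) := by
        simpa using hx.2
      refine ⟨⟨c.π ((x : E) - p), hv⟩, ?_⟩
      apply Subtype.ext
      exact c.inv x hx.1 x.2 (by linarith [hx.2])
    · rintro ⟨v, rfl⟩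
      have h1 := c.map v (hsub v.2)
      refine ⟨h1.1, ?_⟩
      show ‖c.π (c.ψ v - p)‖ ≤ c.r / 2
      rw [h1.2.2]
      exact mem_closedBall_zero_iff.mp v.2
  rw [heq]
  exact hcomp.isClosed

open Classical in
/-- Radial coordinate, cut off at `1`. -/
noncomputable def nu (x : {x : E // f x = 0}) : ℝ :=
  if (x : E) ∈ c.U then min 1 (‖c.π ((x : E) - p)‖ / (c.r / 2)) else 1

omit [FiniteDimensional ℂ E] in
theorem nu_nonneg (x) : 0 ≤ c.nu x := by
  unfold nu
  have := c.r_pos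
  split_ifs
  · apply le_min zero_le_one; positivity
  · exact zero_le_one

omit [FiniteDimensional ℂ E] in
theorem nu_le_one (x) : c.nu x ≤ 1 := by
  unfold nu
  split_ifs
  · exact min_le_left _ _
  · exact le_refl _

omit [FiniteDimensional ℂ E] in
theorem nu_eq_one_of_notMem {x} (hx : x ∉ c.Cl) : c.nu x = 1 := by
  unfold nu
  split_ifs with h
  · apply min_eq_left
    have h1 : c.r / 2 < ‖c.π ((x : E) - p)‖ := by
      by_contra h2
      exact hx ⟨h, not_lt.mp h2⟩
    rw [le_div_iff₀ (by linarith [c.r_pos])]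
    linarith
  · rfl

omit [FiniteDimensional ℂ E] in
theorem mem_V_of_nu {x} (hx : c.nu x < 1) : x ∈ c.V := by
  by_contra h
  have : x ∉ c.Cl := fun h' => h (c.Cl_subset_V h')
  rw [c.nu_eq_one_of_notMem this] at hx
  exact lt_irrefl _ hx

omit [FiniteDimensional ℂ E] in
theorem nu_eq_of_mem {x : {x : E // f x = 0}} (hx : (x : E) ∈ c.U) :
    c.nu x = min 1 (‖c.π ((x : E) - p)‖ / (c.r / 2)) := by
  unfold nu; rw [if_pos hx]

theorem continuous_nu : Continuous c.nu := by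
  rw [continuous_iff_continuousAt]
  intro x
  by_cases hx : x ∈ c.Cl
  · have h1 : c.nu =ᶠ[𝓝 x] fun y => min 1 (‖c.π ((y : E) - p)‖ / (c.r / 2)) := by
      have h2 : {y : {x : E // f x = 0} | (y : E) ∈ c.U} ∈ 𝓝 x :=
        (c.openU.preimage continuous_subtype_val).mem_nhds hx.1
      filter_upwards [h2] with y hy
      exact c.nu_eq_of_mem hy
    have h3 : Continuous fun y : {x : E // f x = 0} => min 1 (‖c.π ((y : E) - p)‖ / (c.r / 2)) := by
      fun_prop
    exact h3.continuousAt.congr h1.symm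
  · have h1 : c.nu =ᶠ[𝓝 x] fun _ => 1 := by
      filter_upwards [c.isClosed_Cl.isOpen_compl.mem_nhds hx] with y hy
      exact c.nu_eq_one_of_notMem hy
    exact continuousAt_const.congr h1.symm

/-- Cutoff: `1` near `p`, `0` far away. -/
noncomputable def et (x : {x : E // f x = 0}) : ℝ := min 1 (2 - 2 * c.nu x)

theorem continuous_et : Continuous c.et := by
  have := c.continuous_nu
  unfold et; fun_prop

omit [FiniteDimensional ℂ E] in
theorem et_nonneg (x) : 0 ≤ c.et x := by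
  unfold et
  exact le_min zero_le_one (by linarith [c.nu_le_one x])

omit [FiniteDimensional ℂ E] in
theorem et_le_one (x) : c.et x ≤ 1 := min_le_left _ _

/-- The vector used in the radial homotopy. -/
noncomputable def vec (q : I × {x : E // f x = 0}) : f'.ker :=
  (((1 - (q.1 : ℝ) * c.et q.2 : ℝ)) : ℂ) • c.π ((q.2 : E) - p)

omit [FiniteDimensional ℂ E] in
theorem scal_bound (q : I × {x : E // f x = 0}) :
    ‖(((1 - (q.1 : ℝ) * c.et q.2 : ℝ)) : ℂ)‖ ≤ 1 := by
  rw [Complex.norm_real, Real.norm_eq_abs, abs_le]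
  have h1 := q.1.2.1
  have h2 := q.1.2.2
  have h3 := c.et_nonneg q.2
  have h4 := c.et_le_one q.2
  constructor <;> nlinarith

omit [FiniteDimensional ℂ E] in
theorem vec_mem {q : I × {x : E // f x = 0}} (hq : q.2 ∈ c.V) : c.vec q ∈ ball (0 : f'.ker) c.r := by
  rw [mem_ball_zero_iff]
  unfold vec
  rw [norm_smul]
  calc _ ≤ 1 * ‖c.π ((q.2 : E) - p)‖ := by
        gcongr; exact c.scal_bound q
    _ < c.r := by rw [one_mul]; exact hq.2

open Classical in
/-- Radial homotopy collapsing a neighbourhood of `p`. -/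
noncomputable def k1 (q : I × {x : E // f x = 0}) : {x : E // f x = 0} :=
  if h : q.2 ∈ c.V then ⟨c.ψ (c.vec q), (c.map _ (c.vec_mem h)).2.1⟩ else q.2

omit [FiniteDimensional ℂ E] in
theorem k1_of_mem {q : I × {x : E // f x = 0}} (h : q.2 ∈ c.V) : (c.k1 q : E) = c.ψ (c.vec q) := by
  unfold k1; rw [dif_pos h]

omit [FiniteDimensional ℂ E] in
theorem k1_of_notMem {q : I × {x : E // f x = 0}} (h : q.2 ∉ c.Cl) : c.k1 q = q.2 := by
  by_cases hV : q.2 ∈ c.V
  · apply Subtype.ext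
    rw [c.k1_of_mem hV]
    have h1 : c.et q.2 = 0 := by
      unfold et; rw [c.nu_eq_one_of_notMem h]; norm_num
    unfold vec
    rw [h1, mul_zero, sub_zero, Complex.ofReal_one, one_smul]
    exact c.inv _ hV.1 q.2.2 hV.2
  · unfold k1; rw [dif_neg hV]

theorem continuous_k1 : Continuous c.k1 := by
  rw [continuous_iff_continuousAt]
  intro q
  by_cases hq : q.2 ∈ c.Cl
  · have hV := c.Cl_subset_V hq
    have hind : Topology.IsInducing (Subtype.val : {x : E // f x = 0} → E) := ⟨rfl⟩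
    rw [hind.continuousAt_iff]
    have h1 : (Subtype.val ∘ c.k1) =ᶠ[𝓝 q] fun q => c.ψ (c.vec q) := by
      have h2 : {q : I × {x : E // f x = 0} | q.2 ∈ c.V} ∈ 𝓝 q :=
        (c.isOpen_V.preimage continuous_snd).mem_nhds hV
      filter_upwards [h2] with y hy
      exact c.k1_of_mem hy
    have h3 : Continuous c.vec := by
      have := c.continuous_et
      unfold vec
      fun_prop
    have h4 : ContinuousAt c.ψ (c.vec q) :=
      (c.cont _ (c.vec_mem hV)).continuousAt (isOpen_ball.mem_nhds (c.vec_mem hV))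
    exact (ContinuousAt.comp (f := c.vec) h4 h3.continuousAt).congr h1.symm
  · have h1 : c.k1 =ᶠ[𝓝 q] fun q => q.2 := by
      have h2 : {q : I × {x : E // f x = 0} | q.2 ∈ c.Clᶜ} ∈ 𝓝 q :=
        (c.isClosed_Cl.isOpen_compl.preimage continuous_snd).mem_nhds hq
      filter_upwards [h2] with y hy
      exact c.k1_of_notMem hy
    exact continuous_snd.continuousAt.congr h1.symm

/-- Cutoff: `0` near `p`, `1` where `k1` is not collapsed. -/
noncomputable def th (x : {x : E // f x = 0}) : I :=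
  ⟨max 0 (min 1 (4 * c.nu x - 1)), le_max_left _ _, max_le zero_le_one (min_le_left _ _)⟩

theorem continuous_th : Continuous c.th := by
  have := c.continuous_nu
  unfold th
  exact Continuous.subtype_mk (by fun_prop) _

omit [FiniteDimensional ℂ E] in
theorem th_eq_one {x} (hx : 1 / 2 ≤ c.nu x) : c.th x = 1 := by
  apply Subtype.ext
  show max 0 (min 1 (4 * c.nu x - 1)) = 1
  rw [min_eq_left (by linarith), max_eq_right zero_le_one]

omit [FiniteDimensional ℂ E] in
theorem th_eq_zero {x} (hx : c.nu x ≤ 1 / 4) : c.th x = 0 := by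
  apply Subtype.ext
  show max 0 (min 1 (4 * c.nu x - 1)) = 0
  rw [max_eq_left]
  exact (min_le_right _ _).trans (by linarith)

omit [FiniteDimensional ℂ E] in
theorem et_eq_one {x} (hx : c.nu x ≤ 1 / 2) : c.et x = 1 := by
  unfold et
  exact min_eq_left (by linarith)

omit [FiniteDimensional ℂ E] in
/-- After time one, the neighbourhood of `p` is collapsed. -/
theorem k1_one_eq {x} (hx : c.nu x ≤ 1 / 2) : (c.k1 (1, x) : E) = p := by
  rw [c.k1_of_mem (q := (1, x)) (c.mem_V_of_nu (by linarith))]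
  unfold vec
  simp only [c.et_eq_one hx]
  simp [c.ψ0]

omit [FiniteDimensional ℂ E] in
theorem k1_zero_eq (x) : c.k1 (0, x) = x := by
  by_cases h : x ∈ c.V
  · apply Subtype.ext
    rw [c.k1_of_mem (q := (0, x)) h]
    unfold vec
    simp only [Set.Icc.coe_zero, zero_mul, sub_zero, Complex.ofReal_one, one_smul]
    exact c.inv _ h.1 x.2 h.2
  · exact c.k1_of_notMem (q := (0, x)) (fun h' => h (c.Cl_subset_V h'))

omit [FiniteDimensional ℂ E] in
/-- Points near `p` have small radial coordinate. -/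
theorem exists_near (ε : ℝ) (hε : 0 < ε) : ∃ δ > 0, ∀ x : {x : E // f x = 0}, ‖(x : E) - p‖ < δ →
    (x : E) ∈ c.U ∧ ‖c.π ((x : E) - p)‖ < ε := by
  obtain ⟨δ, hδ, h⟩ := Metric.isOpen_iff.mp c.openU p c.pU
  refine ⟨min δ (ε / (‖c.π‖ + 1)), lt_min hδ (by positivity), fun x hx => ⟨?_, ?_⟩⟩
  · apply h
    rw [mem_ball, dist_eq_norm]
    exact lt_of_lt_of_le hx (min_le_left _ _)
  · calc ‖c.π ((x : E) - p)‖ ≤ ‖c.π‖ * ‖(x : E) - p‖ := c.π.le_opNorm _
      _ ≤ (‖c.π‖ + 1) * ‖(x : E) - p‖ := by gcongr; linarith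
      _ < (‖c.π‖ + 1) * (ε / (‖c.π‖ + 1)) := by
          gcongr
          exact lt_of_lt_of_le hx (min_le_right _ _)
      _ = ε := by field_simp

omit [FiniteDimensional ℂ E] in
theorem nu_small (κ : ℝ) (hκ : 0 < κ) : ∃ δ > 0, ∀ x : {x : E // f x = 0}, ‖(x : E) - p‖ < δ →
    c.nu x ≤ κ := by
  have hr := c.r_pos
  obtain ⟨δ, hδ, h⟩ := c.exists_near (κ * (c.r / 2)) (by positivity)
  refine ⟨δ, hδ, fun x hx => ?_⟩
  obtain ⟨h1, h2⟩ := h x hx
  rw [c.nu_eq_of_mem h1]
  refine (min_le_right _ _).trans ?_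
  rw [div_le_iff₀ (by positivity)]
  exact h2.le

theorem goodHom_k1 (hp : f p = 0) :
    GoodHom hp c.k1 (fun s => ((1 - (s : ℝ) : ℝ) : ℂ)) where
  cont := c.continuous_k1
  cont_a := by fun_prop
  deriv := by
    intro η hη
    obtain ⟨δ0, hδ0, hlo⟩ := c.lo (η / (2 * (‖c.π‖ + 1))) (by positivity)
    obtain ⟨δ1, hδ1, h1⟩ := c.exists_near (min δ0 (c.r / 2)) (lt_min hδ0 (by linarith [c.r_pos]))
    obtain ⟨δ2, hδ2, h2⟩ := c.nu_small (1 / 2) (by norm_num)
    refine ⟨min δ1 δ2, lt_min hδ1 hδ2, fun s x hx => ?_⟩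
    obtain ⟨hxU, hxπ⟩ := h1 x (lt_of_lt_of_le hx (min_le_left _ _))
    have hnu := h2 x (lt_of_lt_of_le hx (min_le_right _ _))
    have hV : x ∈ c.V := c.mem_V_of_nu (by linarith)
    set v := c.π ((x : E) - p) with hv
    have hψ : c.ψ v = x := c.inv _ hxU x.2 hV.2
    have hk : (c.k1 (s, x) : E) = c.ψ ((((1 - (s : ℝ) : ℝ)) : ℂ) • v) := by
      rw [c.k1_of_mem (q := (s, x)) hV]
      unfold vec
      simp only [c.et_eq_one hnu, mul_one]
      rfl
    have hs : ‖(((1 - (s : ℝ) : ℝ)) : ℂ)‖ ≤ 1 := by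
      rw [Complex.norm_real, Real.norm_eq_abs, abs_le]
      have := s.2.1
      have := s.2.2
      constructor <;> linarith
    have hvδ : ‖v‖ < δ0 := lt_of_lt_of_le hxπ (min_le_left _ _)
    set a : ℂ := (((1 - (s : ℝ) : ℝ)) : ℂ) with ha
    have hav : ‖a • v‖ ≤ ‖v‖ := by
      rw [norm_smul]
      calc ‖a‖ * ‖v‖ ≤ 1 * ‖v‖ := by gcongr
        _ = ‖v‖ := one_mul _
    have b1 := hlo (a • v) (lt_of_le_of_lt hav hvδ)
    have b2 := hlo v hvδ
    have e1 : (c.k1 (s, x) : E) - p - a • ((x : E) - p) =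
        (c.ψ (a • v) - p - ((a • v : f'.ker) : E)) - a • (c.ψ v - p - (v : E)) := by
      rw [hk, hψ, Submodule.coe_smul, smul_sub a _ (v : E)]
      abel
    have hvx : ‖v‖ ≤ (‖c.π‖ + 1) * ‖(x : E) - p‖ := by
      calc ‖v‖ ≤ ‖c.π‖ * ‖(x : E) - p‖ := c.π.le_opNorm _
        _ ≤ (‖c.π‖ + 1) * ‖(x : E) - p‖ := by gcongr; linarith
    have hpos : 0 < ‖c.π‖ + 1 := by positivity
    rw [e1]
    calc ‖(c.ψ (a • v) - p - ((a • v : f'.ker) : E)) - a • (c.ψ v - p - (v : E))‖
        ≤ ‖c.ψ (a • v) - p - ((a • v : f'.ker) : E)‖ + ‖a • (c.ψ v - p - (v : E))‖ :=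
          norm_sub_le _ _
      _ ≤ η / (2 * (‖c.π‖ + 1)) * ‖v‖ + 1 * (η / (2 * (‖c.π‖ + 1)) * ‖v‖) := by
          rw [norm_smul]
          gcongr
          exact b1.trans (by gcongr)
      _ = η / (‖c.π‖ + 1) * ‖v‖ := by field_simp; ring
      _ ≤ η / (‖c.π‖ + 1) * ((‖c.π‖ + 1) * ‖(x : E) - p‖) := by gcongr
      _ = η * ‖(x : E) - p‖ := by field_simp

end ChartData

end Pool.Agent.MP_c984cf_ag
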