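import Pool.Agent.Lib.MP_c984cf_ag.Poly

set_option linter.unusedSectionVars false

namespace Pool.Agent.MP_c984cf_ag

open MvPolynomial

variable {n : ℕ}

/-- `psi` extended by `t ↦ t`. -/
noncomputable def psiHat (p : Fin n → ℂ) :
    MvPolynomial (Fin (n + 1)) ℂ →ₐ[ℂ] MvPolynomial (Fin (n + 1)) ℂ :=
  aeval (Fin.cons (X 0) (fun i => C (p i) + eps n * X i.succ))

theorem psiHat_X0 (p : Fin n → ℂ) : psiHat p (X 0) = X 0 := by simp [psiHat]

theorem psiHat_Xs (p : Fin n → ℂ) (i : Fin n) :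
    psiHat p (X i.succ) = C (p i) + eps n * X i.succ := by simp [psiHat]

theorem psiHat_C (p : Fin n → ℂ) (a : ℂ) : psiHat p (C a) = C a := by
  simp [psiHat, algebraMap_eq]

theorem psiHat_eps (p : Fin n → ℂ) : psiHat p (eps n) = eps n := by
  unfold eps; rw [map_mul, map_sub, psiHat_X0, map_one]

theorem psiHat_rename (p : Fin n → ℂ) (a : MvPolynomial (Fin n) ℂ) :
    psiHat p (rename Fin.succ a) = psi p a := by
  induction a using MvPolynomial.induction_on with
  | C a => rw [rename_C, psiHat_C, psi_C]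
  | add a b ha hb => rw [map_add, map_add, map_add, ha, hb]
  | mul_X a j ha => rw [map_mul, map_mul, map_mul, ha, rename_X, psiHat_Xs, psi_X]

theorem clear_denom (p : Fin n → ℂ) (a : MvPolynomial (Fin (n + 1)) ℂ) :
    ∃ (N : ℕ) (b : MvPolynomial (Fin (n + 1)) ℂ), eps n ^ N * a = psiHat p b := by
  induction a using MvPolynomial.induction_on with
  | C a => exact ⟨0, C a, by rw [psiHat_C]; simp⟩
  | add a b ha hb =>
    obtain ⟨N, a', ha⟩ := ha
    obtain ⟨M, b', hb⟩ := hb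
    refine ⟨N + M, eps n ^ M * a' + eps n ^ N * b', ?_⟩
    rw [map_add, map_mul, map_mul, map_pow, map_pow, psiHat_eps, ← ha, ← hb]
    ring
  | mul_X a j ha =>
    obtain ⟨N, a', ha⟩ := ha
    refine Fin.cases ?_ (fun i => ?_) j
    · exact ⟨N, a' * X 0, by rw [map_mul, psiHat_X0, ← ha]; ring⟩
    · exact ⟨N + 1, a' * (X i.succ - C (p i)), by
        rw [map_mul, map_sub, psiHat_Xs, psiHat_C, ← ha]; ring⟩

theorem finSuccEquiv_rename_succ (a : MvPolynomial (Fin n) ℂ) :
    finSuccEquiv ℂ n (rename Fin.succ a) = Polynomial.C a := by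
  induction a using MvPolynomial.induction_on with
  | C a => rw [rename_C, finSuccEquiv_apply]; simp
  | add a b ha hb => rw [map_add, map_add, map_add, ha, hb]
  | mul_X a j ha => rw [map_mul, map_mul, map_mul, ha, rename_X, finSuccEquiv_X_succ]

section

variable {f : MvPolynomial (Fin n) ℂ} {K : Type} [Field K] [Algebra ℂ K]
  [Algebra (MvPolynomial (Fin n) ℂ ⧸ Ideal.span {f}) K]
  [IsScalarTower ℂ (MvPolynomial (Fin n) ℂ ⧸ Ideal.span {f}) K]

/-- The class of a polynomial in the function field. -/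
noncomputable def kap (f : MvPolynomial (Fin n) ℂ) (K : Type) [Field K] [Algebra ℂ K]
    [Algebra (MvPolynomial (Fin n) ℂ ⧸ Ideal.span {f}) K] : MvPolynomial (Fin n) ℂ →+* K :=
  (algebraMap (MvPolynomial (Fin n) ℂ ⧸ Ideal.span {f}) K).comp (Ideal.Quotient.mk _)

theorem kap_C (a : ℂ) : kap f K (C a) = algebraMap ℂ K a := by
  unfold kap
  rw [RingHom.comp_apply, IsScalarTower.algebraMap_apply ℂ (MvPolynomial (Fin n) ℂ ⧸ Ideal.span {f}) K]
  rfl

/-- The homomorphism from `ℂ[w, t]` to the function field `K(t)`. -/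
noncomputable def phi (f : MvPolynomial (Fin n) ℂ) (K : Type) [Field K] [Algebra ℂ K]
    [Algebra (MvPolynomial (Fin n) ℂ ⧸ Ideal.span {f}) K] (p : Fin n → ℂ) :
    MvPolynomial (Fin (n + 1)) ℂ →ₐ[ℂ] RatFunc K :=
  aeval (Fin.cons RatFunc.X (fun i => (algebraMap K (RatFunc K) (kap f K (X i - C (p i)))) /
    (RatFunc.X * (RatFunc.X - 1))))

theorem epsL_ne : (RatFunc.X * (RatFunc.X - 1) : RatFunc K) ≠ 0 :=
  mul_ne_zero RatFunc.X_ne_zero X_sub_one_ne

theorem phi_X0 (p : Fin n → ℂ) : phi f K p (X 0) = RatFunc.X := by simp [phi]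

theorem phi_C (p : Fin n → ℂ) (a : ℂ) : phi f K p (C a) = algebraMap ℂ (RatFunc K) a := by
  unfold phi; rw [aeval_C]

theorem phi_eps (p : Fin n → ℂ) : phi f K p (eps n) = RatFunc.X * (RatFunc.X - 1) := by
  unfold eps; rw [map_mul, map_sub, phi_X0, map_one]

theorem phi_Xs (p : Fin n → ℂ) (i : Fin n) :
    RatFunc.X * (RatFunc.X - 1) * phi f K p (X i.succ) =
      algebraMap K (RatFunc K) (kap f K (X i - C (p i))) := by
  have : phi f K p (X i.succ) = (algebraMap K (RatFunc K) (kap f K (X i - C (p i)))) /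
      (RatFunc.X * (RatFunc.X - 1)) := by
    unfold phi; rw [aeval_X, Fin.cons_succ]
  rw [this, mul_div_cancel₀ _ epsL_ne]

theorem phi_psi (p : Fin n → ℂ) (a : MvPolynomial (Fin n) ℂ) :
    phi f K p (psi p a) = algebraMap K (RatFunc K) (kap f K a) := by
  induction a using MvPolynomial.induction_on with
  | C a => rw [psi_C, phi_C, kap_C, ← IsScalarTower.algebraMap_apply]
  | add a b ha hb => rw [map_add, map_add, map_add, map_add, ha, hb]
  | mul_X a j ha =>
    rw [map_mul, map_mul, map_mul, map_mul, ha, psi_X, map_add, map_mul, phi_C, phi_eps, phi_Xs]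
    congr 1
    rw [map_sub, map_sub, kap_C, ← IsScalarTower.algebraMap_apply]
    ring

theorem phi_psiHat (p : Fin n → ℂ) (a : MvPolynomial (Fin (n + 1)) ℂ) :
    phi f K p (psiHat p a) = algebraMap (Polynomial K) (RatFunc K)
      ((finSuccEquiv ℂ n a).map (kap f K)) := by
  have key : ((phi f K p).comp (psiHat p) : MvPolynomial (Fin (n + 1)) ℂ →+* RatFunc K) =
      (algebraMap (Polynomial K) (RatFunc K)).comp
        ((Polynomial.mapRingHom (kap f K)).comp
          (finSuccEquiv ℂ n : MvPolynomial (Fin (n + 1)) ℂ →+* _)) := by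
    apply MvPolynomial.ringHom_ext
    · intro r
      show phi f K p (psiHat p (C r)) = algebraMap (Polynomial K) (RatFunc K)
        (Polynomial.map (kap f K) (finSuccEquiv ℂ n (C r)))
      rw [psiHat_C, phi_C, finSuccEquiv_apply]
      simp only [coe_eval₂Hom, eval₂_C, RingHom.comp_apply, Polynomial.map_C, kap_C]
      rw [algebraMap_ratFunc, RatFunc.algebraMap_C]
    · intro i
      show phi f K p (psiHat p (X i)) = algebraMap (Polynomial K) (RatFunc K)
        (Polynomial.map (kap f K) (finSuccEquiv ℂ n (X i)))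
      refine Fin.cases ?_ (fun i => ?_) i
      · rw [psiHat_X0, phi_X0, finSuccEquiv_X_zero, Polynomial.map_X, RatFunc.algebraMap_X]
      · rw [psiHat_Xs, ← psi_X, phi_psi, finSuccEquiv_X_succ, Polynomial.map_C,
          RatFunc.algebraMap_C]
        rfl
  exact congrArg (fun g : MvPolynomial (Fin (n + 1)) ℂ →+* RatFunc K => g a) key

variable [IsFractionRing (MvPolynomial (Fin n) ℂ ⧸ Ideal.span {f}) K]

theorem dvd_of_kap {a : MvPolynomial (Fin n) ℂ} (h : kap f K a = 0) : f ∣ a := by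
  have h1 : Ideal.Quotient.mk (Ideal.span {f}) a = 0 :=
    (map_eq_zero_iff _ (IsFractionRing.injective (MvPolynomial (Fin n) ℂ ⧸ Ideal.span {f}) K)).mp h
  rwa [Ideal.Quotient.eq_zero_iff_mem, Ideal.mem_span_singleton] at h1

theorem kap_self : kap f K f = 0 := by
  unfold kap
  rw [RingHom.comp_apply, Ideal.Quotient.eq_zero_iff_mem.mpr (Ideal.mem_span_singleton_self f),
    map_zero]

variable {p : Fin n → ℂ} {g : MvPolynomial (Fin (n + 1)) ℂ}

omit [IsFractionRing (MvPolynomial (Fin n) ℂ ⧸ Ideal.span {f}) K] in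
theorem phi_g (hg : psi p f = eps n * g) : phi f K p g = 0 := by
  have h1 := phi_psi (f := f) (K := K) p f
  rw [hg, map_mul, phi_eps] at h1
  have h2 : kap f K f = 0 := by
    unfold kap
    rw [RingHom.comp_apply, Ideal.Quotient.eq_zero_iff_mem.mpr (Ideal.mem_span_singleton_self f),
      map_zero]
  rw [h2, map_zero] at h1
  exact (mul_eq_zero.mp h1).resolve_left epsL_ne

theorem ker_phi (hg : psi p f = eps n * g) (h0 : ¬ (X 0 - C 0) ∣ g) (h1 : ¬ (X 0 - C 1) ∣ g)
    {a : MvPolynomial (Fin (n + 1)) ℂ} (ha : phi f K p a = 0) : g ∣ a := by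
  obtain ⟨N, b, hb⟩ := clear_denom p a
  have h2 : phi f K p (psiHat p b) = 0 := by rw [← hb, map_mul, ha, mul_zero]
  rw [phi_psiHat] at h2
  have h3 := (map_eq_zero_iff _ (RatFunc.algebraMap_injective K)).mp h2
  have h4 : Polynomial.C f ∣ finSuccEquiv ℂ n b := by
    rw [Polynomial.C_dvd_iff_dvd_coeff]
    intro i
    apply dvd_of_kap (K := K)
    have := congrArg (fun q : Polynomial K => q.coeff i) h3
    simpa [Polynomial.coeff_map] using this
  obtain ⟨c, hc⟩ := h4
  have h5 : b = rename Fin.succ f * (finSuccEquiv ℂ n).symm c := by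
    apply (finSuccEquiv ℂ n).injective
    rw [map_mul, finSuccEquiv_rename_succ, AlgEquiv.apply_symm_apply, hc]
  apply dvd_of_dvd_eps_pow h0 h1 N
  rw [hb, h5, map_mul, psiHat_rename, hg]
  exact ⟨eps n * psiHat p ((finSuccEquiv ℂ n).symm c), by ring⟩

end

theorem not_dvd_g {f : MvPolynomial (Fin n) ℂ} {p : Fin n → ℂ} {g : MvPolynomial (Fin (n + 1)) ℂ}
    (hg0 : ∀ v : Fin (n + 1) → ℂ, v 0 * (v 0 - 1) = 0 →
        eval v g = ∑ i, eval p (pderiv i f) * v i.succ)
    (hgrad : ∃ j, eval p (pderiv j f) ≠ 0) (c : ℂ) (hc : c * (c - 1) = 0) :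
    ¬ (X 0 - C c) ∣ g := by
  rintro ⟨b, hb⟩
  obtain ⟨j, hj⟩ := hgrad
  let v : Fin (n + 1) → ℂ := Fin.cons c (Pi.single j 1)
  have h1 := hg0 v (by simpa [v] using hc)
  rw [hb, map_mul] at h1
  simp only [map_sub, eval_X, eval_C, v, Fin.cons_zero, sub_self, zero_mul, Fin.cons_succ] at h1
  rw [Finset.sum_eq_single j] at h1
  · simp at h1; exact hj h1.symm
  · intro b _ hb; simp [hb]
  · simp

theorem prime_g {f : MvPolynomial (Fin n) ℂ} (hf : Irreducible f) {p : Fin n → ℂ}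
    {g : MvPolynomial (Fin (n + 1)) ℂ} (hg : psi p f = eps n * g)
    (hg0 : ∀ v : Fin (n + 1) → ℂ, v 0 * (v 0 - 1) = 0 →
        eval v g = ∑ i, eval p (pderiv i f) * v i.succ)
    (hgrad : ∃ j, eval p (pderiv j f) ≠ 0) : Prime g := by
  have : IsDomain (MvPolynomial (Fin n) ℂ ⧸ Ideal.span {f}) := by
    rw [Ideal.Quotient.isDomain_iff_prime, Ideal.span_singleton_prime hf.ne_zero]
    exact hf.prime
  let K := FractionRing (MvPolynomial (Fin n) ℂ ⧸ Ideal.span {f})
  have h0 := not_dvd_g hg0 hgrad 0 (by ring)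
  have h1 := not_dvd_g hg0 hgrad 1 (by ring)
  refine ⟨?_, ?_, ?_⟩
  · rintro rfl
    exact h0 (dvd_zero _)
  · intro hu
    have h2 := hu.map (phi f K p)
    rw [phi_g hg] at h2
    exact not_isUnit_zero h2
  · intro a b hab
    have h2 : phi f K p (a * b) = 0 := by
      obtain ⟨c, hc⟩ := hab
      rw [hc, map_mul, phi_g hg, zero_mul]
    rw [map_mul] at h2
    rcases mul_eq_zero.mp h2 with h3 | h3
    · exact Or.inl (ker_phi (K := K) hg h0 h1 h3)
    · exact Or.inr (ker_phi (K := K) hg h0 h1 h3)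

/-- The coordinate ring of the modification satisfies the hypotheses of `logGeneral_step`. -/
theorem logGeneral_g {d : ℕ} (hd : 1 ≤ d) {f : MvPolynomial (Fin n) ℂ}
    (hlg : LogGeneralType (MvPolynomial (Fin n) ℂ ⧸ Ideal.span {f}) d) {p : Fin n → ℂ}
    {g : MvPolynomial (Fin (n + 1)) ℂ} (hg : psi p f = eps n * g)
    (hg0 : ∀ v : Fin (n + 1) → ℂ, v 0 * (v 0 - 1) = 0 →
        eval v g = ∑ i, eval p (pderiv i f) * v i.succ)
    (hgrad : ∃ j, eval p (pderiv j f) ≠ 0) :
    LogGeneralType (MvPolynomial (Fin (n + 1)) ℂ ⧸ Ideal.span {g}) (d + 1) := by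
  have h0 := not_dvd_g hg0 hgrad 0 (by ring)
  have h1 := not_dvd_g hg0 hgrad 1 (by ring)
  refine logGeneral_step hd hlg ?_
  intro K _ _ _ _ _
  let φ : MvPolynomial (Fin (n + 1)) ℂ ⧸ Ideal.span {g} →ₐ[ℂ] RatFunc K :=
    Ideal.Quotient.liftₐ _ (phi f K p) (by
      intro a ha
      obtain ⟨c, rfl⟩ := Ideal.mem_span_singleton.mp ha
      rw [map_mul, phi_g hg, zero_mul])
  let j : MvPolynomial (Fin n) ℂ ⧸ Ideal.span {f} →ₐ[ℂ] MvPolynomial (Fin (n + 1)) ℂ ⧸ Ideal.span {g} :=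
    Ideal.Quotient.liftₐ _ ((Ideal.Quotient.mkₐ ℂ _).comp (psi p)) (by
      intro a ha
      obtain ⟨c, rfl⟩ := Ideal.mem_span_singleton.mp ha
      rw [AlgHom.comp_apply, map_mul, hg, Ideal.Quotient.mkₐ_eq_mk, Ideal.Quotient.eq_zero_iff_mem,
        Ideal.mem_span_singleton]
      exact ⟨eps n * psi p c, by ring⟩)
  refine ⟨φ, j, Ideal.Quotient.mk _ (X 0), ?_, ?_, ?_, ?_⟩
  · rw [injective_iff_map_eq_zero]
    intro a ha
    obtain ⟨a, rfl⟩ := Ideal.Quotient.mk_surjective a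
    have h2 : phi f K p a = 0 := ha
    rw [Ideal.Quotient.eq_zero_iff_mem, Ideal.mem_span_singleton]
    exact ker_phi (K := K) hg h0 h1 h2
  · intro a
    obtain ⟨a, rfl⟩ := Ideal.Quotient.mk_surjective a
    exact phi_psi (K := K) p a
  · exact phi_X0 p
  · intro a
    obtain ⟨a, rfl⟩ := Ideal.Quotient.mk_surjective a
    obtain ⟨b, hb, _⟩ := psi_mod p a
    refine ⟨eval p a, Ideal.Quotient.mk _ b, ?_⟩
    show Ideal.Quotient.mk _ (psi p a) = _
    rw [hb, map_add, map_mul]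
    congr 1

end Pool.Agent.MP_c984cf_ag
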