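import Pool.Agent.Lib.MP_c984cf_ag.AlgInd

set_option linter.unusedSectionVars false

namespace Pool.Agent.MP_c984cf_ag

section

variable {K : Type} [Field K] [Algebra ℂ K] {d : ℕ}

/-- The frame on `K(t)`: `d/dt` followed by lifts of the frame of `K`. -/
structure IsFrameLift (D : Fin d → Derivation ℂ K K)
    (D' : Fin (d + 1) → Derivation ℂ (RatFunc K) (RatFunc K)) : Prop where
  zero_alg : ∀ a : K, D' 0 (algebraMap K (RatFunc K) a) = 0
  zero_X : D' 0 RatFunc.X = 1
  succ_alg : ∀ (j : Fin d) (a : K),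
    D' j.succ (algebraMap K (RatFunc K) a) = algebraMap K (RatFunc K) (D j a)
  succ_X : ∀ j : Fin d, D' j.succ RatFunc.X = 0

theorem exists_frameLift (D : Fin d → Derivation ℂ K K) : ∃ D', IsFrameLift D D' := by
  obtain ⟨T, hT1, hT2⟩ := exists_dt (K := K)
  choose E hE1 hE2 using fun j => exists_lift_deriv (D j)
  refine ⟨Fin.cons T E, ?_, ?_, ?_, ?_⟩
  · intro a; simpa using hT1 a
  · simpa using hT2
  · intro j a; simpa using hE1 j a
  · intro j; simpa using hE2 j

theorem jac_cons (D' : Fin (d + 1) → Derivation ℂ (RatFunc K) (RatFunc K)) (u : RatFunc K)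
    (hu0 : D' 0 u = 1) (hu : ∀ j : Fin d, D' j.succ u = 0) (c : Fin d → RatFunc K) :
    jac D' (Fin.cons u c) = Matrix.det (Matrix.of fun i j : Fin d => D' j.succ (c i)) := by
  unfold jac
  rw [Matrix.det_succ_row_zero, Finset.sum_eq_single 0]
  · simp only [Matrix.of_apply, Fin.cons_zero, hu0]
    simp only [Fin.val_zero, pow_zero, one_mul]
    congr 1
  · intro j _ hj
    obtain ⟨k, rfl⟩ := Fin.exists_succ_eq.mpr hj
    simp [hu]
  · simp

theorem det_alg {D : Fin d → Derivation ℂ K K}
    {D' : Fin (d + 1) → Derivation ℂ (RatFunc K) (RatFunc K)} (h : IsFrameLift D D')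
    (c : Fin d → K) :
    Matrix.det (Matrix.of fun i j : Fin d => D' j.succ (algebraMap K (RatFunc K) (c i))) =
      algebraMap K (RatFunc K) (jac D c) := by
  unfold jac
  rw [RingHom.map_det]
  congr 1
  ext i j
  simp only [Matrix.of_apply, RingHom.mapMatrix_apply, Matrix.map_apply]
  exact h.succ_alg j (c i)

/-- Logarithmic forms. -/
theorem log_lift {D : Fin d → Derivation ℂ K K}
    {D' : Fin (d + 1) → Derivation ℂ (RatFunc K) (RatFunc K)} (h : IsFrameLift D D')
    (R' : ValuationSubring (RatFunc K)) (u : RatFunc K) (hu : u ≠ 0)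
    (hu0 : D' 0 u = 1) (hu1 : ∀ j : Fin d, D' j.succ u = 0)
    {y : K} (hy : y ∈ logForms (R'.comap (algebraMap K (RatFunc K))) D) :
    algebraMap K (RatFunc K) y / u ∈ logForms R' D' := by
  unfold logForms at hy
  induction hy using Submodule.span_induction with
  | mem y hy =>
    obtain ⟨S, c, h1, h2, rfl⟩ := hy
    apply Submodule.subset_span
    refine ⟨insert 0 (S.map (Fin.succEmb d)), Fin.cons u (fun i => algebraMap K (RatFunc K) (c i)), ?_, ?_, ?_⟩
    · intro i hi
      rcases Finset.mem_insert.mp hi with rfl | hi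
      · simpa using hu
      · obtain ⟨j, hj, rfl⟩ := Finset.mem_map.mp hi
        simp only [Fin.coe_succEmb, Fin.cons_succ]
        intro h0
        exact h1 j hj ((map_eq_zero_iff _ (algebraMap K (RatFunc K)).injective).mp h0)
    · intro i hi
      refine Fin.cases (fun hi => absurd (Finset.mem_insert_self _ _) hi) (fun j hi => ?_) i hi
      simp only [Fin.cons_succ]
      have hj : j ∉ S := fun hj => hi (Finset.mem_insert_of_mem (Finset.mem_map_of_mem (Fin.succEmb d) hj))
      exact h2 j hj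
    · rw [jac_cons D' u hu0 hu1, det_alg h, Finset.prod_insert, Finset.prod_map]
      · simp only [Fin.cons_zero, Fin.coe_succEmb, Fin.cons_succ]
        rw [map_div₀, map_prod, div_div, mul_comm u]
      · simp only [Finset.mem_map, not_exists, not_and]
        intro j _ hj
        exact Fin.succ_ne_zero j hj
  | zero => simp
  | add x y _ _ hx hy =>
    rw [map_add, add_div]
    exact Submodule.add_mem _ hx hy
  | smul a x _ hx =>
    have h3 : algebraMap K (RatFunc K) (a • x) / u =
        (⟨algebraMap K (RatFunc K) a, a.2⟩ : R') • (algebraMap K (RatFunc K) x / u) := by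
      rw [Algebra.smul_def (⟨algebraMap K (RatFunc K) a, a.2⟩ : R')]
      have : a • x = (a : K) * x := rfl
      rw [this, map_mul, mul_div_assoc]
      rfl
    rw [h3]
    exact Submodule.smul_mem _ _ hx

theorem log_lift_pow {D : Fin d → Derivation ℂ K K}
    {D' : Fin (d + 1) → Derivation ℂ (RatFunc K) (RatFunc K)} (h : IsFrameLift D D')
    (R' : ValuationSubring (RatFunc K)) (u v : RatFunc K) (hu : u ≠ 0) (hv : v ≠ 0)
    (hu0 : D' 0 u = 1) (hu1 : ∀ j : Fin d, D' j.succ u = 0)
    (hv0 : D' 0 v = 1) (hv1 : ∀ j : Fin d, D' j.succ v = 0) (m : ℕ) :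
    ∀ (a b : ℕ), a + b = m → ∀ y : K,
      y ∈ logForms (R'.comap (algebraMap K (RatFunc K))) D ^ m →
      algebraMap K (RatFunc K) y / (u ^ a * v ^ b) ∈ logForms R' D' ^ m := by
  induction m with
  | zero =>
    intro a b hab y hy
    have ha : a = 0 := by omega
    have hb : b = 0 := by omega
    subst ha hb
    rw [pow_zero, Submodule.mem_one] at hy ⊢
    obtain ⟨r, rfl⟩ := hy
    refine ⟨⟨algebraMap K (RatFunc K) r, r.2⟩, ?_⟩
    simp
    rfl
  | succ m ih =>
    intro a b hab y hy
    rw [pow_succ] at hy ⊢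
    have main : ∀ (w : RatFunc K) (a' b' : ℕ), a' + b' = m → w ≠ 0 → D' 0 w = 1 →
        (∀ j : Fin d, D' j.succ w = 0) → u ^ a * v ^ b = (u ^ a' * v ^ b') * w →
        algebraMap K (RatFunc K) y / (u ^ a * v ^ b) ∈ logForms R' D' ^ m * logForms R' D' := by
      intro w a' b' hab' hw hw0 hw1 hprod
      rw [hprod]
      induction hy using Submodule.mul_induction_on' with
      | mem_mul_mem x hx z hz =>
        rw [map_mul, mul_div_mul_comm]
        exact Submodule.mul_mem_mul (ih a' b' hab' x hx) (log_lift h R' w hw hw0 hw1 hz)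
      | add x _ z _ hx hz =>
        rw [map_add, add_div]
        exact Submodule.add_mem _ hx hz
    rcases Nat.eq_zero_or_pos a with ha | ha
    · obtain ⟨b', rfl⟩ : ∃ b', b = b' + 1 := ⟨b - 1, by omega⟩
      exact main v a b' (by omega) hv hv0 hv1 (by ring)
    · obtain ⟨a', rfl⟩ : ∃ a', a = a' + 1 := ⟨a - 1, by omega⟩
      exact main u a' b (by omega) hu hu0 hu1 (by ring)

/-- Regular forms. -/
theorem reg_lift {A B : Type} [CommRing A] [CommRing B] [Algebra A K] [Algebra B (RatFunc K)]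
    {D : Fin d → Derivation ℂ K K}
    {D' : Fin (d + 1) → Derivation ℂ (RatFunc K) (RatFunc K)} (h : IsFrameLift D D')
    (j : A →+* B) (τ : B)
    (hj : ∀ a, algebraMap B (RatFunc K) (j a) = algebraMap K (RatFunc K) (algebraMap A K a))
    (hτ : algebraMap B (RatFunc K) τ = RatFunc.X)
    (hdiv : ∀ a : A, ∃ (z : ℂ) (b : B), algebraMap B (RatFunc K) (j a) =
      algebraMap ℂ (RatFunc K) z + RatFunc.X * (RatFunc.X - 1) * algebraMap B (RatFunc K) b)
    {y : K} (hy : y ∈ regForms A D) :
    ∃ y' ∈ regForms B D', algebraMap K (RatFunc K) y = (RatFunc.X * (RatFunc.X - 1)) ^ d * y' := by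
  unfold regForms at hy
  induction hy using Submodule.span_induction with
  | mem y hy =>
    obtain ⟨a, rfl⟩ := hy
    choose z b hb using fun i => hdiv (a i)
    refine ⟨jac D' (fun i => algebraMap B (RatFunc K) ((Fin.cons τ b : Fin (d + 1) → B) i)), ?_, ?_⟩
    · exact Submodule.subset_span ⟨_, rfl⟩
    · have h1 : (fun i => algebraMap B (RatFunc K) ((Fin.cons τ b : Fin (d + 1) → B) i)) =
          Fin.cons RatFunc.X (fun i => algebraMap B (RatFunc K) (b i)) := by
        funext i
        refine Fin.cases ?_ (fun i => ?_) i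
        · simp [hτ]
        · simp
      rw [h1, jac_cons D' _ h.zero_X h.succ_X, ← det_alg h]
      have h2 : (Matrix.of fun i k : Fin d => D' k.succ (algebraMap K (RatFunc K) (algebraMap A K (a i)))) =
          (RatFunc.X * (RatFunc.X - 1) : RatFunc K) •
            (Matrix.of fun i k : Fin d => D' k.succ (algebraMap B (RatFunc K) (b i))) := by
        ext i k
        simp only [Matrix.of_apply, Matrix.smul_apply, smul_eq_mul]
        rw [← hj, hb, map_add, Derivation.map_algebraMap, zero_add, Derivation.leibniz,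
          Derivation.leibniz, map_sub, h.succ_X]
        simp
      rw [h2, Matrix.det_smul, Fintype.card_fin]
  | zero => exact ⟨0, Submodule.zero_mem _, by simp⟩
  | add x y _ _ hx hy =>
    obtain ⟨x', hx', hx⟩ := hx
    obtain ⟨y', hy', hy⟩ := hy
    exact ⟨x' + y', Submodule.add_mem _ hx' hy', by rw [map_add, hx, hy]; ring⟩
  | smul a x _ hx =>
    obtain ⟨x', hx', hx⟩ := hx
    refine ⟨j a • x', Submodule.smul_mem _ _ hx', ?_⟩
    rw [Algebra.smul_def, Algebra.smul_def, map_mul, hx, hj]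
    ring

theorem reg_lift_pow {A B : Type} [CommRing A] [CommRing B] [Algebra A K] [Algebra B (RatFunc K)]
    {D : Fin d → Derivation ℂ K K}
    {D' : Fin (d + 1) → Derivation ℂ (RatFunc K) (RatFunc K)} (h : IsFrameLift D D')
    (j : A →+* B) (τ : B)
    (hj : ∀ a, algebraMap B (RatFunc K) (j a) = algebraMap K (RatFunc K) (algebraMap A K a))
    (hτ : algebraMap B (RatFunc K) τ = RatFunc.X)
    (hdiv : ∀ a : A, ∃ (z : ℂ) (b : B), algebraMap B (RatFunc K) (j a) =
      algebraMap ℂ (RatFunc K) z + RatFunc.X * (RatFunc.X - 1) * algebraMap B (RatFunc K) b)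
    (m : ℕ) : ∀ {y : K}, y ∈ regForms A D ^ m →
    ∃ y' ∈ regForms B D' ^ m,
      algebraMap K (RatFunc K) y = (RatFunc.X * (RatFunc.X - 1)) ^ (d * m) * y' := by
  induction m with
  | zero =>
    intro y hy
    rw [pow_zero, Submodule.mem_one] at hy
    obtain ⟨a, rfl⟩ := hy
    refine ⟨algebraMap B (RatFunc K) (j a), ?_, by simp [hj]⟩
    rw [pow_zero, Submodule.mem_one]
    exact ⟨_, rfl⟩
  | succ m ih =>
    intro y hy
    rw [pow_succ] at hy
    induction hy using Submodule.mul_induction_on' with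
    | mem_mul_mem x hx z hz =>
      obtain ⟨x', hx', hx⟩ := ih hx
      obtain ⟨z', hz', hz⟩ := reg_lift h j τ hj hτ hdiv hz
      refine ⟨x' * z', ?_, by rw [map_mul, hx, hz]; ring⟩
      rw [pow_succ]
      exact Submodule.mul_mem_mul hx' hz'
    | add x _ z _ hx hz =>
      obtain ⟨x', hx', hx⟩ := hx
      obtain ⟨z', hz', hz⟩ := hz
      exact ⟨x' + z', Submodule.add_mem _ hx' hz', by rw [map_add, hx, hz]; ring⟩

theorem X_sub_one_ne : (RatFunc.X : RatFunc K) - 1 ≠ 0 := by
  intro h
  have h1 : algebraMap (Polynomial K) (RatFunc K) (Polynomial.X - 1) = 0 := by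
    rw [map_sub, RatFunc.algebraMap_X, map_one, h]
  have h2 := (map_eq_zero_iff _ (RatFunc.algebraMap_injective K)).mp h1
  exact Polynomial.X_sub_C_ne_zero (1 : K) (by simpa using h2)

/-- The new forms are log pluricanonical. -/
theorem logPluri_lift {A B : Type} [CommRing A] [CommRing B] [Algebra A K] [Algebra B (RatFunc K)]
    (hd : 1 ≤ d) {D : Fin d → Derivation ℂ K K}
    {D' : Fin (d + 1) → Derivation ℂ (RatFunc K) (RatFunc K)} (h : IsFrameLift D D')
    (j : A →+* B) (τ : B)
    (hj : ∀ a, algebraMap B (RatFunc K) (j a) = algebraMap K (RatFunc K) (algebraMap A K a))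
    (hτ : algebraMap B (RatFunc K) τ = RatFunc.X)
    (hdiv : ∀ a : A, ∃ (z : ℂ) (b : B), algebraMap B (RatFunc K) (j a) =
      algebraMap ℂ (RatFunc K) z + RatFunc.X * (RatFunc.X - 1) * algebraMap B (RatFunc K) b)
    {m : ℕ} (a b : ℕ) (hab : a + b = m) {y : K} (hy : y ∈ logPluri A D m) :
    algebraMap K (RatFunc K) y / (RatFunc.X ^ a * (RatFunc.X - 1) ^ b) ∈ logPluri B D' m := by
  obtain ⟨hy1, hy2⟩ := hy
  have hX : (RatFunc.X : RatFunc K) ≠ 0 := RatFunc.X_ne_zero
  refine ⟨?_, ?_⟩
  · obtain ⟨y', hy', hy⟩ := reg_lift_pow h j τ hj hτ hdiv m hy1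
    have hle : m ≤ d * m := Nat.le_mul_of_pos_left m hd
    have h1 : algebraMap K (RatFunc K) y / (RatFunc.X ^ a * (RatFunc.X - 1) ^ b) =
        (τ ^ (d * m - a) * (τ - 1) ^ (d * m - b)) • y' := by
      rw [Algebra.smul_def, map_mul, map_pow, map_pow, map_sub, map_one, hτ, hy, mul_pow,
        div_eq_iff (mul_ne_zero (pow_ne_zero _ hX) (pow_ne_zero _ X_sub_one_ne))]
      have e1 : (RatFunc.X : RatFunc K) ^ (d * m) = RatFunc.X ^ (d * m - a) * RatFunc.X ^ a := by
        rw [← pow_add]; congr 1; omega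
      have e2 : ((RatFunc.X : RatFunc K) - 1) ^ (d * m) =
          (RatFunc.X - 1) ^ (d * m - b) * (RatFunc.X - 1) ^ b := by
        rw [← pow_add]; congr 1; omega
      rw [e1, e2]
      ring
    rw [h1]
    exact Submodule.smul_mem _ _ hy'
  · intro R' hR'
    refine log_lift_pow h R' RatFunc.X (RatFunc.X - 1) hX X_sub_one_ne h.zero_X h.succ_X ?_ ?_ m a b
      hab y (hy2 _ ?_)
    · rw [map_sub, h.zero_X]; simp
    · intro k; rw [map_sub, h.succ_X]; simp
    · intro z
      rw [ValuationSubring.mem_comap, ← IsScalarTower.algebraMap_apply]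
      exact hR' z

end

theorem isFractionRing_ratFunc {A B K : Type} [CommRing A] [CommRing B] [Field K] [Algebra A K]
    [IsFractionRing A K] [Algebra B (RatFunc K)]
    (hinj : Function.Injective (algebraMap B (RatFunc K))) (j : A → B)
    (hj : ∀ a, algebraMap B (RatFunc K) (j a) = algebraMap K (RatFunc K) (algebraMap A K a))
    (τ : B) (hτ : algebraMap B (RatFunc K) τ = RatFunc.X) : IsFractionRing B (RatFunc K) := by
  have : IsDomain A := Function.Injective.isDomain (algebraMap A K) (IsFractionRing.injective A K)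
  let Q : RatFunc K → Prop := fun x => ∃ a b : B, algebraMap B (RatFunc K) b ≠ 0 ∧
    x * algebraMap B (RatFunc K) b = algebraMap B (RatFunc K) a
  have hadd : ∀ x y, Q x → Q y → Q (x + y) := by
    rintro x y ⟨a, b, hb, h1⟩ ⟨c, d, hd, h2⟩
    refine ⟨a * d + c * b, b * d, by rw [map_mul]; exact mul_ne_zero hb hd, ?_⟩
    rw [map_add, map_mul, map_mul, map_mul, ← h1, ← h2]; ring
  have hmul : ∀ x y, Q x → Q y → Q (x * y) := by
    rintro x y ⟨a, b, hb, h1⟩ ⟨c, d, hd, h2⟩
    refine ⟨a * c, b * d, by rw [map_mul]; exact mul_ne_zero hb hd, ?_⟩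
    rw [map_mul, map_mul, ← h1, ← h2]; ring
  have hinv : ∀ x, Q x → Q x⁻¹ := by
    rintro x ⟨a, b, hb, h1⟩
    by_cases hx : x = 0
    · subst hx; exact ⟨0, b, hb, by simp⟩
    · have ha : algebraMap B (RatFunc K) a ≠ 0 := by rw [← h1]; exact mul_ne_zero hx hb
      refine ⟨b, a, ha, ?_⟩
      rw [← h1]; field_simp
  have hK : ∀ c : K, Q (algebraMap K (RatFunc K) c) := by
    intro c
    obtain ⟨a, b, hb, rfl⟩ := IsFractionRing.div_surjective (A := A) c
    refine ⟨j a, j b, ?_, ?_⟩
    · rw [hj]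
      intro h0
      have h1 := (map_eq_zero_iff _ (algebraMap K (RatFunc K)).injective).mp h0
      exact (IsFractionRing.to_map_ne_zero_of_mem_nonZeroDivisors hb) h1
    · rw [hj, hj, ← map_mul, div_mul_cancel₀]
      exact IsFractionRing.to_map_ne_zero_of_mem_nonZeroDivisors hb
  have hX : Q RatFunc.X := ⟨τ, 1, by simp, by simp [hτ]⟩
  have hpoly : ∀ q : Polynomial K, Q (algebraMap (Polynomial K) (RatFunc K) q) := by
    intro q
    induction q using Polynomial.induction_on' with
    | add p q hp hq => rw [map_add]; exact hadd _ _ hp hq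
    | monomial n c =>
      rw [← Polynomial.C_mul_X_pow_eq_monomial, map_mul, map_pow, RatFunc.algebraMap_X,
        RatFunc.algebraMap_C, ← RatFunc.algebraMap_eq_C]
      refine hmul _ _ (hK c) ?_
      induction n with
      | zero => rw [pow_zero]; exact ⟨1, 1, by simp, by simp⟩
      | succ n ih => rw [pow_succ]; exact hmul _ _ ih hX
  have hall : ∀ x, Q x := by
    intro x
    rw [← RatFunc.num_div_denom x, div_eq_mul_inv]
    exact hmul _ _ (hpoly _) (hinv _ (hpoly _))
  have : IsDomain B := Function.Injective.isDomain (algebraMap B (RatFunc K)) hinj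
  refine (isLocalization_iff _ _).mpr ⟨?_, ?_, ?_⟩
  · intro y
    rw [isUnit_iff_ne_zero]
    intro h0
    exact nonZeroDivisors.coe_ne_zero y ((map_eq_zero_iff _ hinj).mp h0)
  · intro x
    obtain ⟨a, b, hb, h⟩ := hall x
    refine ⟨(a, ⟨b, mem_nonZeroDivisors_of_ne_zero (fun h0 => hb (by rw [h0, map_zero]))⟩), h⟩
  · intro x y hxy
    exact ⟨1, by rw [hinj hxy]⟩

theorem logGeneral_step {A B : Type} [CommRing A] [Algebra ℂ A] [CommRing B] [Algebra ℂ B]
    {d : ℕ} (hd : 1 ≤ d) (hA : LogGeneralType A d)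
    (hB : ∀ (K : Type) [Field K] [Algebra ℂ K] [Algebra A K] [IsScalarTower ℂ A K]
      [IsFractionRing A K], ∃ (φ : B →ₐ[ℂ] RatFunc K) (j : A →ₐ[ℂ] B) (τ : B),
        Function.Injective φ ∧
        (∀ a, φ (j a) = algebraMap K (RatFunc K) (algebraMap A K a)) ∧
        φ τ = RatFunc.X ∧ ∀ a : A, ∃ (z : ℂ) (b : B), j a = algebraMap ℂ B z + τ * (τ - 1) * b) :
    LogGeneralType B (d + 1) := by
  obtain ⟨K, i1, i2, i3, i4, i5, D, m, h, ⟨c, hc⟩, hm, hh, h0, hind⟩ := hA
  obtain ⟨φ, j, τ, hφ, hj, hτ, hdiv⟩ := hB K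
  obtain ⟨D', hD'⟩ := exists_frameLift D
  let _ : Algebra B (RatFunc K) := φ.toRingHom.toAlgebra
  have hal : ∀ b, algebraMap B (RatFunc K) b = φ b := fun b => rfl
  have : IsScalarTower ℂ B (RatFunc K) := IsScalarTower.of_algebraMap_eq (fun z => by
    rw [hal, AlgHom.commutes])
  have : IsFractionRing B (RatFunc K) :=
    isFractionRing_ratFunc (A := A) (K := K) hφ j hj τ hτ
  have hdiv' : ∀ a : A, ∃ (z : ℂ) (b : B), algebraMap B (RatFunc K) (j a) =
      algebraMap ℂ (RatFunc K) z + RatFunc.X * (RatFunc.X - 1) * algebraMap B (RatFunc K) b := by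
    intro a
    obtain ⟨z, b, hb⟩ := hdiv a
    refine ⟨z, b, ?_⟩
    rw [hb, map_add, map_mul, map_mul, map_sub, map_one, hal τ, hτ, ← IsScalarTower.algebraMap_apply]
  have hnew : ∀ (a b : ℕ), a + b = m → ∀ i,
      algebraMap K (RatFunc K) (h i) / (RatFunc.X ^ a * (RatFunc.X - 1) ^ b) ∈ logPluri B D' m :=
    fun a b hab i => logPluri_lift hd hD' (j : A →+* B) τ hj hτ hdiv' a b hab (hh i)
  let H : Fin (d + 1 + 1) → RatFunc K :=
    Fin.cons (algebraMap K (RatFunc K) (h 0) / (RatFunc.X ^ m * (RatFunc.X - 1) ^ 0))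
      (Fin.cons (algebraMap K (RatFunc K) (h 0) / (RatFunc.X ^ (m - 1) * (RatFunc.X - 1) ^ 1))
        (fun i : Fin d => algebraMap K (RatFunc K) (h i.succ) / (RatFunc.X ^ m * (RatFunc.X - 1) ^ 0)))
  have hX : (RatFunc.X : RatFunc K) ≠ 0 := RatFunc.X_ne_zero
  have hX1 : (RatFunc.X : RatFunc K) - 1 ≠ 0 := X_sub_one_ne
  have hh0 : algebraMap K (RatFunc K) (h 0) ≠ 0 := by
    intro h1
    exact h0 ((map_eq_zero_iff _ (algebraMap K (RatFunc K)).injective).mp h1)
  refine ⟨RatFunc K, inferInstance, inferInstance, inferInstance, inferInstance, inferInstance,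
    D', m, H, ⟨Fin.cons RatFunc.X (fun i => algebraMap K (RatFunc K) (c i)), ?_⟩, hm, ?_, ?_, ?_⟩
  · rw [jac_cons D' _ hD'.zero_X hD'.succ_X, det_alg hD']
    intro h1
    exact hc ((map_eq_zero_iff _ (algebraMap K (RatFunc K)).injective).mp h1)
  · intro i
    refine Fin.cases ?_ (fun i => ?_) i
    · exact hnew m 0 (by omega) 0
    · refine Fin.cases ?_ (fun i => ?_) i
      · exact hnew (m - 1) 1 (by omega) 0
      · exact hnew m 0 (by omega) i.succ
  · simp only [H, Fin.cons_zero]
    exact div_ne_zero hh0 (mul_ne_zero (pow_ne_zero _ hX) (pow_ne_zero _ hX1))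
  · have hfun : (fun i : Fin (d + 1) => H i.succ / H 0) =
        (Fin.cons (RatFunc.X / (RatFunc.X - 1))
          (fun i => algebraMap K (RatFunc K) (h i.succ / h 0)) : Fin (d + 1) → RatFunc K) := by
      funext i
      refine Fin.cases ?_ (fun i => ?_) i
      · simp only [H, Fin.cons_zero, Fin.cons_succ]
        obtain ⟨m', rfl⟩ : ∃ m', m = m' + 1 := ⟨m - 1, by omega⟩
        simp only [Nat.add_sub_cancel, pow_zero, mul_one, pow_one]
        field_simp
        ring
      · simp only [H, Fin.cons_zero, Fin.cons_succ]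
        rw [map_div₀]
        field_simp
    have h3 := algInd_cons hind (RatFunc.X / (RatFunc.X - 1)) transcendental_u
    rw [← hfun] at h3
    exact h3

end Pool.Agent.MP_c984cf_ag
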