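import Mathlib

namespace Pool.Agent.MP_c984cf_ag

open Metric Set Filter Topology unitInterval

section

variable {E : Type} [NormedAddCommGroup E] [NormedSpace ℂ E]

/-- `t (t - 1)`. -/
def ep (t : ℂ) : ℂ := t * (t - 1)

theorem continuous_ep : Continuous ep := by unfold ep; fun_prop

/-- The modification of `{f = 0} × ℂ` over `t = 0` and `t = 1` at the point `p`. -/
def Mod (f : E → ℂ) (f' : E →L[ℂ] ℂ) (p : E) : Set (E × ℂ) :=
  {z | (ep z.2 ≠ 0 ∧ f (p + ep z.2 • z.1) = 0) ∨ (ep z.2 = 0 ∧ f' z.1 = 0)}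

variable {f : E → ℂ} {f' : E →L[ℂ] ℂ} {p : E}

/-- Projection to `{f = 0}`. -/
def toD (hp : f p = 0) (z : Mod f f' p) : {x : E // f x = 0} :=
  ⟨p + ep z.1.2 • z.1.1, by
    rcases z.2 with h | h
    · exact h.2
    · rw [h.1, zero_smul, add_zero, hp]⟩

theorem continuous_toD (hp : f p = 0) : Continuous (toD (f' := f') hp) := by
  unfold toD
  refine Continuous.subtype_mk ?_ _
  have := continuous_ep
  fun_prop

/-- A homotopy of `{f = 0}` fixing `p`, with derivative `a s` times the identity at `p`. -/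
structure GoodHom (hp : f p = 0) (k : I × {x : E // f x = 0} → {x : E // f x = 0})
    (a : I → ℂ) : Prop where
  cont : Continuous k
  cont_a : Continuous a
  deriv : ∀ η > 0, ∃ δ > 0, ∀ (s : I) (x : {x : E // f x = 0}), ‖(x : E) - p‖ < δ →
    ‖(k (s, x) : E) - p - a s • ((x : E) - p)‖ ≤ η * ‖(x : E) - p‖

/-- First component of the lifted homotopy. -/
noncomputable def liftFun (hp : f p = 0) (k : I × {x : E // f x = 0} → {x : E // f x = 0})
    (a : I → ℂ) (s : I) (z : Mod f f' p) : E :=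
  a s • z.1.1 + (ep z.1.2)⁻¹ • ((k (s, toD hp z) : E) - p - a s • ((toD hp z : E) - p))

theorem liftFun_of_ne (hp : f p = 0) (k : I × {x : E // f x = 0} → {x : E // f x = 0})
    (a : I → ℂ) (s : I) (z : Mod f f' p) (hz : ep z.1.2 ≠ 0) :
    liftFun hp k a s z = (ep z.1.2)⁻¹ • ((k (s, toD hp z) : E) - p) := by
  unfold liftFun
  have h1 : (toD hp z : E) - p = ep z.1.2 • z.1.1 := by simp [toD]
  rw [h1, smul_sub (ep z.1.2)⁻¹ _ (a s • ep z.1.2 • z.1.1), smul_comm (a s) (ep z.1.2),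
    smul_smul (ep z.1.2)⁻¹ (ep z.1.2), inv_mul_cancel₀ hz, one_smul]
  abel

theorem liftFun_of_eq (hp : f p = 0) (k : I × {x : E // f x = 0} → {x : E // f x = 0})
    (a : I → ℂ) (s : I) (z : Mod f f' p) (hz : ep z.1.2 = 0) :
    liftFun hp k a s z = a s • z.1.1 := by
  unfold liftFun
  rw [hz, inv_zero, zero_smul, add_zero]

theorem continuous_liftFun {hp : f p = 0} {k : I × {x : E // f x = 0} → {x : E // f x = 0}}
    {a : I → ℂ} (h : GoodHom hp k a) :
    Continuous (fun q : I × Mod f f' p => liftFun hp k a q.1 q.2) := by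
  have hk := h.cont
  have ha := h.cont_a
  have hep := continuous_ep
  have hD := continuous_toD (f' := f') hp
  have hmain : Continuous (fun q : I × Mod f f' p =>
      (k (q.1, toD hp q.2) : E) - p - a q.1 • ((toD hp q.2 : E) - p)) := by
    have h1 : Continuous (fun q : I × Mod f f' p => k (q.1, toD hp q.2)) := by fun_prop
    fun_prop
  have hw : Continuous (fun q : I × Mod f f' p => a q.1 • q.2.1.1) := by fun_prop
  unfold liftFun
  refine hw.add ?_
  rw [continuous_iff_continuousAt]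
  intro q0
  by_cases hq : ep q0.2.1.2 = 0
  · -- the second term tends to zero
    have hval : (ep q0.2.1.2)⁻¹ • ((k (q0.1, toD hp q0.2) : E) - p -
        a q0.1 • ((toD hp q0.2 : E) - p)) = 0 := by rw [hq, inv_zero, zero_smul]
    unfold ContinuousAt
    simp only [hval]
    rw [Metric.tendsto_nhds]
    intro η hη
    obtain ⟨δ, hδ, hd⟩ := h.deriv (η / (2 * (‖q0.2.1.1‖ + 1))) (by positivity)
    have e1 : ∀ᶠ q : I × Mod f f' p in 𝓝 q0, ‖q.2.1.1‖ < ‖q0.2.1.1‖ + 1 := by
      have h1 : Continuous (fun q : I × Mod f f' p => ‖q.2.1.1‖) := by fun_prop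
      exact h1.continuousAt.eventually_lt continuousAt_const (by linarith)
    have e2 : ∀ᶠ q : I × Mod f f' p in 𝓝 q0, ‖ep q.2.1.2 • q.2.1.1‖ < δ := by
      have h1 : Continuous (fun q : I × Mod f f' p => ‖ep q.2.1.2 • q.2.1.1‖) := by fun_prop
      refine h1.continuousAt.eventually_lt continuousAt_const ?_
      rw [hq, zero_smul, norm_zero]
      exact hδ
    filter_upwards [e1, e2] with q h1 h2
    rw [dist_zero_right]
    by_cases hq' : ep q.2.1.2 = 0
    · rw [hq', inv_zero, zero_smul, norm_zero]; exact hη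
    · have h3 : (toD hp q.2 : E) - p = ep q.2.1.2 • q.2.1.1 := by simp [toD]
      have h4 := hd q.1 (toD hp q.2) (by rw [h3]; exact h2)
      rw [norm_smul, norm_inv]
      rw [h3] at h4 ⊢
      have h5 : 0 < ‖ep q.2.1.2‖ := norm_pos_iff.mpr hq'
      calc ‖ep q.2.1.2‖⁻¹ * ‖(k (q.1, toD hp q.2) : E) - p - a q.1 • ep q.2.1.2 • q.2.1.1‖
          ≤ ‖ep q.2.1.2‖⁻¹ * (η / (2 * (‖q0.2.1.1‖ + 1)) * ‖ep q.2.1.2 • q.2.1.1‖) := by gcongr
        _ = η / (2 * (‖q0.2.1.1‖ + 1)) * ‖q.2.1.1‖ := by rw [norm_smul]; field_simp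
        _ ≤ η / (2 * (‖q0.2.1.1‖ + 1)) * (‖q0.2.1.1‖ + 1) := by gcongr
        _ = η / 2 := by field_simp
        _ < η := by linarith
  · have h1 : ContinuousAt (fun q : I × Mod f f' p => (ep q.2.1.2)⁻¹) q0 := by
      have h0 : Continuous (fun q : I × Mod f f' p => ep q.2.1.2) := by fun_prop
      exact ContinuousAt.inv₀ (f := fun q : I × Mod f f' p => ep q.2.1.2) h0.continuousAt hq
    exact h1.smul hmain.continuousAt

theorem liftFun_mem (hp : f p = 0) (k : I × {x : E // f x = 0} → {x : E // f x = 0})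
    (a : I → ℂ) (s : I) (z : Mod f f' p) : (liftFun hp k a s z, z.1.2) ∈ Mod f f' p := by
  by_cases hz : ep z.1.2 = 0
  · right
    rw [liftFun_of_eq _ _ _ _ _ hz]
    refine ⟨hz, ?_⟩
    rcases z.2 with h | h
    · exact absurd hz h.1
    · simp [h.2]
  · left
    refine ⟨hz, ?_⟩
    rw [liftFun_of_ne _ _ _ _ _ hz]
    simp only
    rw [smul_smul, mul_inv_cancel₀ hz, one_smul, add_sub_cancel]
    exact (k (s, toD hp z)).2

/-- The lifted homotopy. -/
noncomputable def liftMap {hp : f p = 0} {k : I × {x : E // f x = 0} → {x : E // f x = 0}}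
    {a : I → ℂ} (h : GoodHom hp k a) : C(I × Mod f f' p, Mod f f' p) where
  toFun := fun q => ⟨(liftFun hp k a q.1 q.2, q.2.1.2), liftFun_mem hp k a q.1 q.2⟩
  continuous_toFun := by
    refine Continuous.subtype_mk ?_ _
    exact (continuous_liftFun h).prodMk (by fun_prop)

end

end Pool.Agent.MP_c984cf_ag
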