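import Pool.Agent.Lib.MP_c984cf_ag.Kappa

namespace Pool.Agent.MP_c984cf_ag

open MvPolynomial

variable {n : ℕ}

/-- `t (t - 1)`, where `t` is the variable number `0`. -/
noncomputable def eps (n : ℕ) : MvPolynomial (Fin (n + 1)) ℂ := X 0 * (X 0 - 1)

/-- Substitution `x = p + t (t - 1) w`. -/
noncomputable def psi (p : Fin n → ℂ) : MvPolynomial (Fin n) ℂ →ₐ[ℂ] MvPolynomial (Fin (n + 1)) ℂ :=
  aeval (fun i => C (p i) + eps n * X i.succ)

theorem hadamard (p : Fin n → ℂ) (f : MvPolynomial (Fin n) ℂ) :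
    ∃ q : Fin n → MvPolynomial (Fin n) ℂ, f = C (eval p f) + ∑ i, (X i - C (p i)) * q i := by
  induction f using MvPolynomial.induction_on with
  | C a => exact ⟨fun _ => 0, by simp⟩
  | add f g hf hg =>
    obtain ⟨q, hq⟩ := hf
    obtain ⟨r, hr⟩ := hg
    refine ⟨fun i => q i + r i, ?_⟩
    conv_lhs => rw [hq, hr]
    simp only [map_add, mul_add, Finset.sum_add_distrib]
    ring
  | mul_X f j hf =>
    obtain ⟨q, hq⟩ := hf
    refine ⟨fun i => q i * X j + if i = j then C (eval p f) else 0, ?_⟩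
    conv_lhs => rw [hq]
    simp only [map_mul, eval_X, mul_add, Finset.sum_add_distrib, add_mul, Finset.sum_mul,
      mul_ite, mul_zero, Finset.sum_ite_eq', Finset.mem_univ, if_true, mul_assoc]
    ring

theorem eval_eps (v : Fin (n + 1) → ℂ) : eval v (eps n) = v 0 * (v 0 - 1) := by
  simp [eps]

theorem eval_psi (p : Fin n → ℂ) (f : MvPolynomial (Fin n) ℂ) (v : Fin (n + 1) → ℂ) :
    eval v (psi p f) = eval (fun i => p i + v 0 * (v 0 - 1) * v i.succ) f := by
  have h : (eval v).comp (psi p : MvPolynomial (Fin n) ℂ →+* MvPolynomial (Fin (n + 1)) ℂ) =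
      eval (fun i => p i + v 0 * (v 0 - 1) * v i.succ) := by
    apply MvPolynomial.ringHom_ext
    · intro r; simp [psi]
    · intro i; simp [psi, eval_eps]
  exact congrArg (fun g : MvPolynomial (Fin n) ℂ →+* ℂ => g f) h

theorem psi_C (p : Fin n → ℂ) (a : ℂ) : psi p (C a) = C a := by
  simp [psi, algebraMap_eq]

theorem psi_X (p : Fin n → ℂ) (i : Fin n) : psi p (X i) = C (p i) + eps n * X i.succ := by
  simp [psi]

/-- Every polynomial is constant modulo `t (t - 1)` after the substitution. -/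
theorem psi_mod (p : Fin n → ℂ) (f : MvPolynomial (Fin n) ℂ) :
    ∃ g, psi p f = C (eval p f) + eps n * g ∧
      ∀ v : Fin (n + 1) → ℂ, v 0 * (v 0 - 1) = 0 →
        eval v g = ∑ i, eval p (pderiv i f) * v i.succ := by
  obtain ⟨q, hq⟩ := hadamard p f
  refine ⟨∑ i, X i.succ * psi p (q i), ?_, ?_⟩
  · conv_lhs => rw [hq]
    rw [map_add, psi_C, map_sum, Finset.mul_sum]
    congr 1
    apply Finset.sum_congr rfl
    intro i _
    rw [map_mul, map_sub, psi_C, psi_X]
    ring
  · intro v hv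
    have hd : ∀ j, eval p (pderiv j f) = eval p (q j) := by
      intro j
      conv_lhs => rw [hq]
      simp only [map_add, map_sum, Derivation.leibniz, smul_eq_mul, map_mul, map_sub, pderiv_C,
        pderiv_X, eval_X, eval_C, sub_self, zero_mul, zero_add, sub_zero]
      rw [Finset.sum_eq_single j]
      · simp
      · intro b _ hb
        simp [hb]
      · simp
    rw [map_sum]
    apply Finset.sum_congr rfl
    intro i _
    rw [map_mul, eval_X, eval_psi, hv, hd]
    simp only [zero_mul, add_zero]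
    ring

theorem pderiv_eps (i : Fin n) : pderiv i.succ (eps n) = 0 := by
  unfold eps
  simp [Derivation.leibniz, pderiv_X, (Fin.succ_ne_zero i).symm]

theorem pderiv_psi (p : Fin n → ℂ) (i : Fin n) (f : MvPolynomial (Fin n) ℂ) :
    pderiv i.succ (psi p f) = eps n * psi p (pderiv i f) := by
  induction f using MvPolynomial.induction_on with
  | C a => simp
  | add f g hf hg => rw [map_add, map_add, map_add, map_add, hf, hg]; ring
  | mul_X f j hf =>
    rw [map_mul, Derivation.leibniz, Derivation.leibniz, hf, psi_X, map_add, pderiv_C,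
      Derivation.leibniz, pderiv_eps]
    simp only [smul_eq_mul, map_add, map_mul, psi_X, pderiv_X, Pi.single_apply, Fin.succ_inj]
    split_ifs <;> simp <;> ring

theorem eps_ne_zero : eps n ≠ 0 := by
  intro h
  have := congrArg (eval (fun _ => (2 : ℂ))) h
  rw [eval_eps] at this
  norm_num at this

theorem pderiv_g {p : Fin n → ℂ} {f : MvPolynomial (Fin n) ℂ} {g : MvPolynomial (Fin (n + 1)) ℂ}
    (hg : psi p f = eps n * g) (i : Fin n) : pderiv i.succ g = psi p (pderiv i f) := by
  have h1 : pderiv i.succ (psi p f) = eps n * pderiv i.succ g := by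
    rw [hg, Derivation.leibniz, pderiv_eps]; simp
  rw [pderiv_psi] at h1
  exact (mul_left_cancel₀ eps_ne_zero h1).symm

theorem prime_X0_sub (c : ℂ) : Prime (X 0 - C c : MvPolynomial (Fin (n + 1)) ℂ) := by
  have h1 : finSuccEquiv ℂ n (X 0 - C c) =
      Polynomial.X - Polynomial.C (C c : MvPolynomial (Fin n) ℂ) := by
    rw [map_sub, finSuccEquiv_X_zero, finSuccEquiv_apply]
    simp
  rw [← MulEquiv.prime_iff (finSuccEquiv ℂ n), h1]
  exact Polynomial.prime_X_sub_C _

theorem dvd_of_dvd_mul {R : Type} [CommRing R] [IsDomain R] {π g a : R} (hπ : Prime π)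
    (hg : ¬ π ∣ g) (h : g ∣ π * a) : g ∣ a := by
  obtain ⟨c, hc⟩ := h
  have h1 : π ∣ g * c := ⟨a, hc.symm⟩
  rcases hπ.dvd_or_dvd h1 with h2 | h2
  · exact absurd h2 hg
  · obtain ⟨c', rfl⟩ := h2
    refine ⟨c', mul_left_cancel₀ hπ.ne_zero ?_⟩
    rw [hc]; ring

theorem dvd_of_dvd_eps_pow {g : MvPolynomial (Fin (n + 1)) ℂ}
    (h0 : ¬ (X 0 - C 0) ∣ g) (h1 : ¬ (X 0 - C 1) ∣ g) (N : ℕ) :
    ∀ a, g ∣ eps n ^ N * a → g ∣ a := by
  induction N with
  | zero => intro a h; simpa using h
  | succ N ih =>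
    intro a h
    apply ih
    apply dvd_of_dvd_mul (prime_X0_sub 1) h1
    apply dvd_of_dvd_mul (prime_X0_sub 0) h0
    convert h using 1
    unfold eps
    rw [pow_succ]
    simp only [map_zero, map_one]
    ring

end Pool.Agent.MP_c984cf_ag
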