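import Pool.Agent.Lib.MP_c984cf_ag.Contract
import Pool.Agent.Lib.MP_c984cf_ag.Hyp

namespace Pool.Agent.MP_c984cf_ag

open MvPolynomial

variable {n : ℕ}

/-- The differential of a polynomial. -/
noncomputable def dif (p : Fin n → ℂ) (f : MvPolynomial (Fin n) ℂ) : (Fin n → ℂ) →L[ℂ] ℂ :=
  ∑ i, eval p (pderiv i f) • (ContinuousLinearMap.proj i : (Fin n → ℂ) →L[ℂ] ℂ)

theorem dif_apply (p : Fin n → ℂ) (f : MvPolynomial (Fin n) ℂ) (v : Fin n → ℂ) :
    dif p f v = ∑ i, eval p (pderiv i f) * v i := by
  simp [dif]

theorem hasStrictFDerivAt_eval (p : Fin n → ℂ) (f : MvPolynomial (Fin n) ℂ) :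
    HasStrictFDerivAt (fun x => eval x f) (dif p f) p := by
  induction f using MvPolynomial.induction_on with
  | C a =>
    have h1 : dif p (C a : MvPolynomial (Fin n) ℂ) = 0 := by
      ext v; simp [dif]
    rw [h1]
    simpa using hasStrictFDerivAt_const a p
  | add f g hf hg =>
    have h1 : dif p (f + g) = dif p f + dif p g := by
      ext v
      simp [dif_apply, add_mul, Finset.sum_add_distrib]
    have h2 : (fun x => eval x (f + g)) = (fun x => eval x f) + fun x => eval x g := by
      funext x; simp
    rw [h1, h2]
    exact hf.add hg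
  | mul_X f j hf =>
    have hj : HasStrictFDerivAt (fun x : Fin n → ℂ => x j)
        (ContinuousLinearMap.proj j : (Fin n → ℂ) →L[ℂ] ℂ) p :=
      (ContinuousLinearMap.proj j : (Fin n → ℂ) →L[ℂ] ℂ).hasStrictFDerivAt
    have h1 : dif p (f * X j) = eval p f • (ContinuousLinearMap.proj j : (Fin n → ℂ) →L[ℂ] ℂ) +
        p j • dif p f := by
      ext v
      rw [dif_apply]
      simp only [Derivation.leibniz, smul_eq_mul, map_add, map_mul, eval_X, pderiv_X, add_mul,
        Finset.sum_add_distrib, add_apply, smul_apply,
        ContinuousLinearMap.proj_apply, dif_apply, Finset.mul_sum]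
      congr 1
      · rw [Finset.sum_eq_single j]
        · simp
        · intro b _ hb; simp [hb]
        · simp
      · apply Finset.sum_congr rfl; intro i _; ring
    have h2 : (fun x => eval x (f * X j)) = (fun x => eval x f) * fun x => x j := by
      funext x; simp
    rw [h1, h2]
    exact hf.mul hj

/-- The inductive step. -/
theorem step (hn : 2 ≤ n) {f : MvPolynomial (Fin n) ℂ} (h : IsSmoothContractibleLG n f) :
    ∃ g : MvPolynomial (Fin (n + 1)) ℂ, IsSmoothContractibleLG (n + 1) g := by
  have hc := h.contractible
  obtain ⟨⟨p, hp⟩⟩ : Nonempty {x : Fin n → ℂ // eval x f = 0} := inferInstance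
  have hgrad := h.smooth p hp
  obtain ⟨g, hg, hg0⟩ := psi_mod p f
  rw [hp, map_zero, zero_add] at hg
  have hgev : ∀ v : Fin (n + 1) → ℂ, eval (fun i => p i + v 0 * (v 0 - 1) * v i.succ) f =
      v 0 * (v 0 - 1) * eval v g := by
    intro v
    rw [← eval_psi, hg, map_mul, eval_eps]
  refine ⟨g, (prime_g h.irreducible hg hg0 hgrad).irreducible, ?_, ?_, ?_⟩
  · -- smoothness
    intro v hv
    have hv' : eval (fun i => p i + v 0 * (v 0 - 1) * v i.succ) f = 0 := by
      rw [hgev, hv, mul_zero]
    obtain ⟨i, hi⟩ := h.smooth _ hv'
    refine ⟨i.succ, ?_⟩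
    rw [pderiv_g hg, eval_psi]
    exact hi
  · -- contractibility
    have hf := hasStrictFDerivAt_eval p f
    have hsurj : (dif p f).range = ⊤ := by
      rw [LinearMap.range_eq_top]
      obtain ⟨j, hj⟩ := hgrad
      intro y
      refine ⟨Pi.single j (y / eval p (pderiv j f)), ?_⟩
      show dif p f _ = y
      rw [dif_apply, Finset.sum_eq_single j]
      · rw [Pi.single_eq_same]; field_simp
      · intro b _ hb; simp [hb]
      · simp
    have hM : ContractibleSpace (Mod (fun x => eval x f) (dif p f) p) :=
      contractible_Mod hf hp hsurj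
    let e : {v : Fin (n + 1) → ℂ // eval v g = 0} ≃ₜ Mod (fun x => eval x f) (dif p f) p :=
      { toFun := fun v => ⟨(fun i => v.1 i.succ, v.1 0), by
          by_cases hz : v.1 0 * (v.1 0 - 1) = 0
          · refine Or.inr ⟨hz, ?_⟩
            rw [dif_apply, ← hg0 v.1 hz]
            exact v.2
          · refine Or.inl ⟨hz, ?_⟩
            have := hgev v.1
            rw [v.2, mul_zero] at this
            exact this⟩
        invFun := fun z => ⟨Fin.cons z.1.2 z.1.1, by
          have h1 := hgev (Fin.cons z.1.2 z.1.1)
          simp only [Fin.cons_zero, Fin.cons_succ] at h1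
          rcases z.2 with hz | hz
          · have h2 : eval (fun i => p i + z.1.2 * (z.1.2 - 1) * z.1.1 i) f = 0 := hz.2
            rw [h2] at h1
            exact (mul_eq_zero.mp h1.symm).resolve_left hz.1
          · have h2 := hg0 (Fin.cons z.1.2 z.1.1) hz.1
            rw [h2]
            have h3 := hz.2
            rw [dif_apply] at h3
            simpa using h3⟩
        left_inv := by
          intro v
          apply Subtype.ext
          funext i
          refine Fin.cases ?_ (fun i => ?_) i <;> simp
        right_inv := by
          intro z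
          apply Subtype.ext
          simp
        continuous_toFun := by
          refine Continuous.subtype_mk ?_ _
          exact (continuous_pi fun i => (continuous_apply i.succ).comp continuous_subtype_val).prodMk
            ((continuous_apply 0).comp continuous_subtype_val)
        continuous_invFun := by
          refine Continuous.subtype_mk ?_ _
          refine continuous_pi fun i => ?_
          refine Fin.cases ?_ (fun i => ?_) i
          · simp only [Fin.cons_zero]; fun_prop
          · simp only [Fin.cons_succ]; fun_prop }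
    exact e.contractibleSpace
  · -- logarithmic Kodaira dimension
    have h1 := logGeneral_g (d := n - 1) (by omega) h.logGeneral hg hg0 hgrad
    have h2 : n - 1 + 1 = n + 1 - 1 := by omega
    rwa [h2] at h1

end Pool.Agent.MP_c984cf_ag
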